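import Pool.Agent.Helper712.EG.Defs

set_option autoImplicit false

namespace Pool.Agent.Helper712.EG

theorem idx_facts : ∀ s : Fin 84, pi (kpq s) = tp s ∧ pj (kpq s) = tq s ∧
    pi (kpr s) = tp s ∧ pj (kpr s) = tr s ∧ pi (kqr s) = tq s ∧ pj (kqr s) = tr s := by
  decide +kernel

theorem idx_ne : ∀ s : Fin 84, tp s ≠ tq s ∧ tp s ≠ tr s ∧ tq s ≠ tr s := by decide +kernel

@[simp] theorem pi_kpq (s : Fin 84) : pi (kpq s) = tp s := (idx_facts s).1
@[simp] theorem pj_kpq (s : Fin 84) : pj (kpq s) = tq s := (idx_facts s).2.1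
@[simp] theorem pi_kpr (s : Fin 84) : pi (kpr s) = tp s := (idx_facts s).2.2.1
@[simp] theorem pj_kpr (s : Fin 84) : pj (kpr s) = tr s := (idx_facts s).2.2.2.1
@[simp] theorem pi_kqr (s : Fin 84) : pi (kqr s) = tq s := (idx_facts s).2.2.2.2.1
@[simp] theorem pj_kqr (s : Fin 84) : pj (kqr s) = tr s := (idx_facts s).2.2.2.2.2

theorem pair_ne : ∀ κ : Fin 36, pi κ ≠ pj κ := by decide +kernel

variable {R : Type} [CommRing R]

theorem tau_add_left (u v : Fin 36 → R) (b : Fin 9 → R) :
    tau (u + v) b = tau u b + tau v b := by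
  funext μ
  simp only [tau, Pi.add_apply, ← Finset.sum_add_distrib]
  exact Finset.sum_congr rfl fun s _ => by ring

theorem tau_add_right (u : Fin 36 → R) (b c : Fin 9 → R) :
    tau u (b + c) = tau u b + tau u c := by
  funext μ
  simp only [tau, Pi.add_apply, ← Finset.sum_add_distrib]
  exact Finset.sum_congr rfl fun s _ => by ring

theorem tau_smul_left (r : R) (u : Fin 36 → R) (b : Fin 9 → R) :
    tau (r • u) b = r • tau u b := by
  funext μ
  simp only [tau, Pi.smul_apply, smul_eq_mul, Finset.mul_sum]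
  exact Finset.sum_congr rfl fun s _ => by ring

theorem tau_smul_right (r : R) (u : Fin 36 → R) (b : Fin 9 → R) :
    tau u (r • b) = r • tau u b := by
  funext μ
  simp only [tau, Pi.smul_apply, smul_eq_mul, Finset.mul_sum]
  exact Finset.sum_congr rfl fun s _ => by ring

@[simp] theorem tau_zero_left (b : Fin 9 → R) : tau (0 : Fin 36 → R) b = 0 := by
  funext μ; simp [tau]

@[simp] theorem tau_zero_right (u : Fin 36 → R) : tau u (0 : Fin 9 → R) = 0 := by
  funext μ; simp [tau]

theorem tau_neg_left (u : Fin 36 → R) (b : Fin 9 → R) : tau (-u) b = -tau u b := by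
  have := tau_smul_left (-1 : R) u b
  simpa using this

theorem tau_neg_right (u : Fin 36 → R) (b : Fin 9 → R) : tau u (-b) = -tau u b := by
  have := tau_smul_right (-1 : R) u b
  simpa using this

theorem tau_sub_left (u v : Fin 36 → R) (b : Fin 9 → R) :
    tau (u - v) b = tau u b - tau v b := by
  rw [sub_eq_add_neg, tau_add_left, tau_neg_left, ← sub_eq_add_neg]

@[simp] theorem beta_zero_left (b : Fin 9 → R) : beta (0 : Fin 9 → R) b = 0 := by
  funext μ; simp [beta]

@[simp] theorem beta_zero_right (b : Fin 9 → R) : beta b (0 : Fin 9 → R) = 0 := by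
  funext μ; simp [beta]

theorem beta_add_left (a b c : Fin 9 → R) : beta (a + b) c = beta a c + beta b c := by
  funext μ; simp [beta]; ring

theorem beta_add_right (a b c : Fin 9 → R) : beta a (b + c) = beta a b + beta a c := by
  funext μ; simp [beta]; ring

theorem beta_smul_left (r : R) (a b : Fin 9 → R) : beta (r • a) b = r • beta a b := by
  funext μ; simp [beta]; ring

theorem beta_smul_right (r : R) (a b : Fin 9 → R) : beta a (r • b) = r • beta a b := by
  funext μ; simp [beta]; ring

theorem beta_sub_beta (a b : Fin 9 → R) : beta a b - beta b a = wedge a b := by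
  funext μ; simp [beta, wedge]; ring

@[simp] theorem sigma_zero_left (b : Fin 9 → R) : sigma (0 : Fin 9 → R) b = 0 := by
  funext μ; simp [sigma]

@[simp] theorem sigma_zero_right (b : Fin 9 → R) : sigma b (0 : Fin 9 → R) = 0 := by
  funext μ; simp [sigma]

theorem wedge_add_left (a b c : Fin 9 → R) : wedge (a + b) c = wedge a c + wedge b c := by
  funext μ; simp [wedge]; ring

theorem wedge_add_right (a b c : Fin 9 → R) : wedge a (b + c) = wedge a b + wedge a c := by
  funext μ; simp [wedge]; ring

theorem wedge_smul_left (r : R) (a b : Fin 9 → R) : wedge (r • a) b = r • wedge a b := by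
  funext μ; simp [wedge]; ring

theorem wedge_smul_right (r : R) (a b : Fin 9 → R) : wedge a (r • b) = r • wedge a b := by
  funext μ; simp [wedge]; ring

/-- the trilinear form is alternating -/
theorem tau_wedge_self (a b : Fin 9 → R) : tau (wedge a b) b = 0 := by
  funext μ
  simp only [tau, Pi.zero_apply]
  refine Finset.sum_eq_zero fun s _ => ?_
  simp [wedge]
  ring

theorem tau_wedge_self' (a b : Fin 9 → R) : tau (wedge a b) a = 0 := by
  funext μ
  simp only [tau, Pi.zero_apply]
  refine Finset.sum_eq_zero fun s _ => ?_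
  simp [wedge]
  ring

/-- auxiliary cubic term -/
def kap (a b c : Fin 9 → R) : Fin 36 → R := fun μ =>
  ∑ s : Fin 84, (a (tr s) * b (tq s) * c (tp s)) * (S s μ : R)

theorem cocycle (a b c : Fin 9 → R) :
    tau (beta a b) c + sigma (a + b) c + sigma a b =
      sigma b c + sigma a (b + c) - (3 : R) • kap a b c := by
  funext μ
  simp only [tau, sigma, kap, Pi.add_apply, Pi.sub_apply, Pi.smul_apply, smul_eq_mul,
    Finset.mul_sum, ← Finset.sum_add_distrib, ← Finset.sum_sub_distrib]
  refine Finset.sum_congr rfl fun s _ => ?_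
  simp only [beta, pi_kpq, pj_kpq, pi_kpr, pj_kpr, pi_kqr, pj_kqr]
  ring

end Pool.Agent.Helper712.EG
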