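import Pool.Agent.Helper712.EG.Gen

set_option autoImplicit false

namespace Pool.Agent.Helper712.EG

open F1
open scoped commutatorElement

theorem iog_pow (w : Fin 36 → ZMod 9) (n : ℕ) : iog w ^ n = iog ((n : ZMod 9) • w) := by
  have := iog_zsmul (n : ℤ) w
  rw [Int.cast_natCast] at this
  rw [this, zpow_natCast]

theorem pow27 (g : G) : g ^ 27 = 1 := by
  obtain ⟨x, rfl⟩ := mk_surj g
  have h : mk x ^ 27 = (mk x ^ 3) ^ 9 := by rw [← pow_mul]
  rw [h, mk_cube, iog_pow]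
  have : ((9 : ℕ) : ZMod 9) = 0 := by decide
  rw [this, zero_smul, iog_zero]

theorem isPGroup : IsPGroup 3 G := fun g => ⟨3, by
  have : 3 ^ 3 = 27 := by norm_num
  rw [this]; exact pow27 g⟩

/-- the image of the derived part -/
def D : Subgroup G := iogHom.range

theorem mem_D {g : G} : g ∈ D ↔ ∃ w, iog w = g := by
  constructor
  · rintro ⟨w, hw⟩
    exact ⟨Multiplicative.toAdd w, hw⟩
  · rintro ⟨w, hw⟩
    exact ⟨Multiplicative.ofAdd w, hw⟩

theorem conj_iog (w : Fin 36 → ZMod 9) (x : F1) :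
    (mk x)⁻¹ * iog w * mk x = iog (w + (3 : ZMod 9) • tau w x.b) := by
  have h : iog w * mk x = mk x * iog (w + (3 : ZMod 9) • tau w x.b) := by
    rw [iog, iog, ← mk_mul, ← mk_mul, mul_io, io_mul]
    have h0 : w + x.u + (3 : ZMod 9) • tau w x.b = x.u + (w + (3 : ZMod 9) • tau w x.b) := by
      abel
    rw [h0]
  rw [mul_assoc, h]
  group

theorem conj_iog' (w : Fin 36 → ZMod 9) (g : G) : ∃ v, g * iog w * g⁻¹ = iog v := by
  obtain ⟨x, hx⟩ := mk_surj g⁻¹
  refine ⟨w + (3 : ZMod 9) • tau w x.b, ?_⟩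
  rw [← conj_iog w x, hx]
  group

/-- commutators lie in the derived part -/
theorem commutator_mem (g h : G) : ∃ w, ⁅g, h⁆ = iog w := by
  obtain ⟨x, rfl⟩ := mk_surj g
  obtain ⟨y, rfl⟩ := mk_surj h
  have h1 : ⁅mk x, mk y⁆ = (mk y * mk x) * iog (comm x y) * (mk y * mk x)⁻¹ := by
    rw [commutatorElement_def, iog_comm_eq]; group
  rw [h1]
  exact conj_iog' _ _

theorem commutator_iog (w : Fin 36 → ZMod 9) (x : F1) :
    ⁅iog w, mk x⁆ = iog ((3 : ZMod 9) • tau w x.b) := by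
  have hi : (mk x)⁻¹ = mk x⁻¹ := rfl
  have h1 := conj_iog (-w) x⁻¹
  rw [← hi, inv_inv, inv_b, tau_neg_left, tau_neg_right, neg_neg] at h1
  rw [commutatorElement_def, mul_assoc, mul_assoc, ← mul_assoc (mk x), ← iog_neg, h1, ← iog_add]
  refine congrArg iog ?_
  abel

theorem lcs_one_le : Subgroup.lowerCentralSeries (⊤ : Subgroup G) 1 ≤ D := by
  show ⁅(⊤ : Subgroup G), ⊤⁆ ≤ D
  rw [Subgroup.commutator_le]
  intro g _ h _
  obtain ⟨w, hw⟩ := commutator_mem g h
  exact mem_D.2 ⟨w, hw.symm⟩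

theorem lcs_two_le : Subgroup.lowerCentralSeries (⊤ : Subgroup G) 2 ≤ Subgroup.center G := by
  show ⁅Subgroup.lowerCentralSeries (⊤ : Subgroup G) 1, ⊤⁆ ≤ _
  rw [Subgroup.commutator_le]
  intro g hg h _
  obtain ⟨w, rfl⟩ := mem_D.1 (lcs_one_le hg)
  obtain ⟨x, rfl⟩ := mk_surj h
  rw [commutator_iog]
  exact iog_three_central _

theorem lcs_three : Subgroup.lowerCentralSeries (⊤ : Subgroup G) 3 = ⊥ := by
  rw [eq_bot_iff]
  show ⁅Subgroup.lowerCentralSeries (⊤ : Subgroup G) 2, ⊤⁆ ≤ _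
  rw [Subgroup.commutator_le]
  intro g hg h _
  have := Subgroup.mem_center_iff.1 (lcs_two_le hg) h
  rw [Subgroup.mem_bot, commutatorElement_eq_one_iff_mul_comm]
  exact this.symm

theorem iog_single_mem {H : Subgroup G} (h1 : ∀ κ, iog (Pi.single κ 1) ∈ H)
    (w : Fin 36 → ZMod 9) : iog w ∈ H := by
  have h2 : ∀ (s : Finset (Fin 36)), iog (∑ κ ∈ s, w κ • (Pi.single κ 1 : Fin 36 → ZMod 9)) ∈ H := by
    intro s
    induction s using Finset.induction_on with
    | empty => rw [Finset.sum_empty, iog_zero]; exact H.one_mem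
    | insert a s ha ih =>
      rw [Finset.sum_insert ha, iog_add]
      refine H.mul_mem ?_ ih
      obtain ⟨c, hc⟩ := ZMod.intCast_surjective (w a)
      rw [← hc, iog_zsmul]
      exact H.zpow_mem (h1 a) c
  rw [vec_sum36 w]
  exact h2 _

theorem iog_mem_lcs_one (w : Fin 36 → ZMod 9) :
    iog w ∈ Subgroup.lowerCentralSeries (⊤ : Subgroup G) 1 := by
  apply iog_single_mem
  intro κ
  rw [← wedge_pair, ← comm_X, iog_comm_eq]
  have h1 : (mk (X (pj κ)) * mk (X (pi κ)))⁻¹ * (mk (X (pi κ)) * mk (X (pj κ))) =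
      ⁅(mk (X (pi κ)))⁻¹, (mk (X (pj κ)))⁻¹⁆ := by
    rw [commutatorElement_def]; group
  rw [h1]
  exact Subgroup.commutator_mem_commutator (Subgroup.mem_top _) (Subgroup.mem_top _)

theorem tau_Fv_ne : (3 : ZMod 9) • tau (Fv 0 : Fin 36 → ZMod 9) (e 1) ≠ 0 := by
  obtain ⟨v, hv⟩ := T1 (e 0 : Fin 9 → ZMod 9) (e 1)
  rw [fm_e] at hv
  rw [hv, smul_add, nine', add_zero]
  intro h
  have := congrFun h 0
  revert this
  decide

theorem lcs_two_ne : Subgroup.lowerCentralSeries (⊤ : Subgroup G) 2 ≠ ⊥ := by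
  intro h
  have h1 : ⁅iog (Fv 0), mk (X 1)⁆ ∈ Subgroup.lowerCentralSeries (⊤ : Subgroup G) 2 :=
    Subgroup.commutator_mem_commutator (iog_mem_lcs_one _) (Subgroup.mem_top _)
  rw [h, Subgroup.mem_bot, commutator_iog, X_b] at h1
  exact tau_Fv_ne (iog_inj (h1.trans iog_zero.symm))

instance isNilpotent : Group.IsNilpotent G :=
  Subgroup.nilpotent_iff_lowerCentralSeries.2 ⟨3, lcs_three⟩

theorem class_three : Group.nilpotencyClass G = 3 := by
  apply le_antisymm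
  · exact Subgroup.lowerCentralSeries_eq_bot_iff_nilpotencyClass_le.1 lcs_three
  · by_contra hlt
    have h2 : Group.nilpotencyClass G ≤ 2 := by omega
    exact lcs_two_ne (Subgroup.lowerCentralSeries_eq_bot_iff_nilpotencyClass_le.2 h2)

end Pool.Agent.Helper712.EG
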