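import Mathlib

/-!
Data and basic operations for a finite 3-group of class three on nine generators.
`Fin 36` indexes the pairs `i < j` and `Fin 84` the triples `p < q < r` of `Fin 9`
in lexicographic order.
-/

set_option autoImplicit false

namespace Pool.Agent.Helper712.EG

/-- first entries of the pairs -/
def piL : List ℕ := [0, 0, 0, 0, 0, 0, 0, 0, 1, 1, 1, 1, 1, 1, 1, 2, 2, 2, 2, 2, 2, 3, 3, 3, 3, 3, 4, 4, 4, 4, 5, 5, 5, 6, 6, 7]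
/-- second entries of the pairs -/
def pjL : List ℕ := [1, 2, 3, 4, 5, 6, 7, 8, 2, 3, 4, 5, 6, 7, 8, 3, 4, 5, 6, 7, 8, 4, 5, 6, 7, 8, 5, 6, 7, 8, 6, 7, 8, 7, 8, 8]
def pi (κ : Fin 36) : Fin 9 := Fin.ofNat 9 (piL.getD κ 0)
def pj (κ : Fin 36) : Fin 9 := Fin.ofNat 9 (pjL.getD κ 0)

def tpL : List ℕ := [0, 0, 0, 0, 0, 0, 0, 0, 0, 0, 0, 0, 0, 0, 0, 0, 0, 0, 0, 0, 0, 0, 0, 0, 0, 0, 0, 0, 1, 1, 1, 1, 1, 1, 1, 1, 1, 1, 1, 1, 1, 1, 1, 1, 1, 1, 1, 1, 1, 2, 2, 2, 2, 2, 2, 2, 2, 2, 2, 2, 2, 2, 2, 2, 3, 3, 3, 3, 3, 3, 3, 3, 3, 3, 4, 4, 4, 4, 4, 4, 5, 5, 5, 6]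
def tqL : List ℕ := [1, 1, 1, 1, 1, 1, 1, 2, 2, 2, 2, 2, 2, 3, 3, 3, 3, 3, 4, 4, 4, 4, 5, 5, 5, 6, 6, 7, 2, 2, 2, 2, 2, 2, 3, 3, 3, 3, 3, 4, 4, 4, 4, 5, 5, 5, 6, 6, 7, 3, 3, 3, 3, 3, 4, 4, 4, 4, 5, 5, 5, 6, 6, 7, 4, 4, 4, 4, 5, 5, 5, 6, 6, 7, 5, 5, 5, 6, 6, 7, 6, 6, 7, 7]
def trL : List ℕ := [2, 3, 4, 5, 6, 7, 8, 3, 4, 5, 6, 7, 8, 4, 5, 6, 7, 8, 5, 6, 7, 8, 6, 7, 8, 7, 8, 8, 3, 4, 5, 6, 7, 8, 4, 5, 6, 7, 8, 5, 6, 7, 8, 6, 7, 8, 7, 8, 8, 4, 5, 6, 7, 8, 5, 6, 7, 8, 6, 7, 8, 7, 8, 8, 5, 6, 7, 8, 6, 7, 8, 7, 8, 8, 6, 7, 8, 7, 8, 8, 7, 8, 8, 8]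
def tp (s : Fin 84) : Fin 9 := Fin.ofNat 9 (tpL.getD s 0)
def tq (s : Fin 84) : Fin 9 := Fin.ofNat 9 (tqL.getD s 0)
def tr (s : Fin 84) : Fin 9 := Fin.ofNat 9 (trL.getD s 0)

/-- index of the pair `(p,q)` of the triple `s = (p,q,r)`, and so on -/
def kpqL : List ℕ := [0, 0, 0, 0, 0, 0, 0, 1, 1, 1, 1, 1, 1, 2, 2, 2, 2, 2, 3, 3, 3, 3, 4, 4, 4, 5, 5, 6, 8, 8, 8, 8, 8, 8, 9, 9, 9, 9, 9, 10, 10, 10, 10, 11, 11, 11, 12, 12, 13, 15, 15, 15, 15, 15, 16, 16, 16, 16, 17, 17, 17, 18, 18, 19, 21, 21, 21, 21, 22, 22, 22, 23, 23, 24, 26, 26, 26, 27, 27, 28, 30, 30, 31, 33]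
def kprL : List ℕ := [1, 2, 3, 4, 5, 6, 7, 2, 3, 4, 5, 6, 7, 3, 4, 5, 6, 7, 4, 5, 6, 7, 5, 6, 7, 6, 7, 7, 9, 10, 11, 12, 13, 14, 10, 11, 12, 13, 14, 11, 12, 13, 14, 12, 13, 14, 13, 14, 14, 16, 17, 18, 19, 20, 17, 18, 19, 20, 18, 19, 20, 19, 20, 20, 22, 23, 24, 25, 23, 24, 25, 24, 25, 25, 27, 28, 29, 28, 29, 29, 31, 32, 32, 34]
def kqrL : List ℕ := [8, 9, 10, 11, 12, 13, 14, 15, 16, 17, 18, 19, 20, 21, 22, 23, 24, 25, 26, 27, 28, 29, 30, 31, 32, 33, 34, 35, 15, 16, 17, 18, 19, 20, 21, 22, 23, 24, 25, 26, 27, 28, 29, 30, 31, 32, 33, 34, 35, 21, 22, 23, 24, 25, 26, 27, 28, 29, 30, 31, 32, 33, 34, 35, 26, 27, 28, 29, 30, 31, 32, 33, 34, 35, 30, 31, 32, 33, 34, 35, 33, 34, 35, 35]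
def kpq (s : Fin 84) : Fin 36 := Fin.ofNat 36 (kpqL.getD s 0)
def kpr (s : Fin 84) : Fin 36 := Fin.ofNat 36 (kprL.getD s 0)
def kqr (s : Fin 84) : Fin 36 := Fin.ofNat 36 (kqrL.getD s 0)

/-- the table of `t(e_p, e_q, e_r)`: masks of the coordinates with value `1` and `-1` -/
def Sm : List (ℕ × ℕ) := [(1073741829, 0),
  (512, 0),
  (4366272129, 0),
  (2048, 0),
  (4096, 67109504),
  (8192, 0),
  (16384, 0),
  (67142272, 0),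
  (65536, 0),
  (131072, 67109504),
  (262144, 67109504),
  (131072, 67109512),
  (16416, 0),
  (1073741825, 8212),
  (0, 4294967297),
  (2112, 0),
  (16777216, 0),
  (33554432, 67109504),
  (0, 640),
  (1073741825, 8214),
  (268435456, 67109504),
  (536870913, 0),
  (1073741825, 0),
  (2147483648, 0),
  (4294967296, 0),
  (8589934592, 0),
  (17179869184, 0),
  (8208, 0),
  (0, 0),
  (1073741825, 2105364),
  (0, 4299161601),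
  (2112, 8388608),
  (67109504, 0),
  (67109504, 0),
  (1, 0),
  (0, 0),
  (0, 0),
  (4299161601, 4),
  (4299161601, 67109504),
  (0, 0),
  (1073741828, 257),
  (1140851329, 2105372),
  (0, 0),
  (0, 0),
  (0, 4366271121),
  (0, 0),
  (2113, 75498144),
  (0, 0),
  (0, 0),
  (2, 67109504),
  (257, 1073741828),
  (4366795401, 131072),
  (1075847440, 0),
  (4299163713, 75498112),
  (16416, 1048576),
  (2, 67109504),
  (16416, 1048576),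
  (1073741825, 134225942),
  (67109504, 0),
  (0, 67109504),
  (1, 0),
  (1073741825, 201335446),
  (0, 0),
  (0, 0),
  (0, 67109504),
  (0, 67109504),
  (67109568, 0),
  (128, 0),
  (0, 0),
  (4366271121, 0),
  (0, 0),
  (0, 4366271121),
  (8208, 34359738368),
  (4, 0),
  (0, 0),
  (8212, 38658899969),
  (67109504, 4299161601),
  (524360, 67240576),
  (1048704, 16416),
  (2105372, 1073741825),
  (67109504, 0),
  (0, 67109504),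
  (4366271121, 0),
  (75498144, 2112)]
def S (s : Fin 84) (μ : Fin 36) : ℤ :=
  if (Sm.getD s (0, 0)).1.testBit μ then 1
  else if (Sm.getD s (0, 0)).2.testBit μ then -1 else 0

/-- the cubes: `x_k ^ 3 = ∏ [x_i, x_j] ^ c` over the entries `(i, j, c)` -/
def Fl : Fin 9 → List (Fin 9 × Fin 9 × ℤ) := ![
  [(1, 2, 1), (3, 4, 1), (5, 6, 1), (7, 8, 1)],
  [(0, 1, 1), (3, 5, 1), (5, 8, 1)],
  [(0, 2, 1), (3, 4, -1), (4, 6, 1)],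
  [(0, 3, 1), (1, 2, -1), (5, 6, 1)],
  [(0, 4, 1), (2, 5, -1), (2, 7, 1)],
  [(0, 5, 1), (1, 7, 1), (7, 8, -1)],
  [(0, 6, 1), (1, 8, 1), (2, 8, -1)],
  [(0, 7, 1), (1, 5, 1), (3, 6, -1)],
  [(0, 8, 1), (1, 3, 1), (4, 5, 1)]]

section Ops

variable {R : Type} [CommRing R]

/-- standard basis vector -/
def e (i : Fin 9) : Fin 9 → R := Pi.single i 1

def wedge (a b : Fin 9 → R) : Fin 36 → R := fun κ => a (pi κ) * b (pj κ) - a (pj κ) * b (pi κ)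

def beta (a b : Fin 9 → R) : Fin 36 → R := fun κ => -(a (pj κ) * b (pi κ))

def tau (u : Fin 36 → R) (b : Fin 9 → R) : Fin 36 → R := fun μ =>
  ∑ s : Fin 84, (u (kpq s) * b (tr s) - u (kpr s) * b (tq s) + u (kqr s) * b (tp s)) * (S s μ : R)

def sigma (a b : Fin 9 → R) : Fin 36 → R := fun μ =>
  ∑ s : Fin 84, (-(a (tq s) * b (tp s) * b (tr s)) - a (tq s) * a (tr s) * b (tp s)
    + a (tr s) * b (tp s) * b (tq s)) * (S s μ : R)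

def Fv (k : Fin 9) : Fin 36 → R :=
  ((Fl k).map (fun t => (t.2.2 : R) • wedge (e t.1) (e t.2.1))).sum

end Ops

end Pool.Agent.Helper712.EG
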