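import Pool.Agent.Helper712.EG.Struct

set_option autoImplicit false

namespace Pool.Agent.Helper712.EG

open F1

theorem exists_kappa : ∀ κ : Fin 36, (wedge (e (pi κ)) (e (pj κ)) : Fin 36 → ℤ) = Pi.single κ 1 := by
  decide +kernel

theorem wedge_pair (κ : Fin 36) :
    (wedge (e (pi κ)) (e (pj κ)) : Fin 36 → ZMod 9) = Pi.single κ 1 := by
  funext μ
  have h := congrArg (Int.castRingHom (ZMod 9)) (congrFun (exists_kappa κ) μ)
  rw [map_wedge] at h
  simp only [map_e] at h
  have h2 : (fun i : Fin 9 => (e (pi κ) i : ZMod 9)) = e (pi κ) := rfl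
  have h3 : (fun i : Fin 9 => (e (pj κ) i : ZMod 9)) = e (pj κ) := rfl
  rw [h2, h3] at h
  rw [h]
  by_cases hk : μ = κ
  · subst hk; simp
  · simp [hk]

theorem vec_sum36 (w : Fin 36 → ZMod 9) :
    w = ∑ κ, w κ • (Pi.single κ 1 : Fin 36 → ZMod 9) := by
  funext i
  simp [Finset.sum_apply, Pi.single_apply]

/-- a subgroup containing the generators contains the derived part -/
theorem iog_mem (H : Subgroup G) (hH : ∀ k, mk (X k) ∈ H) (w : Fin 36 → ZMod 9) : iog w ∈ H := by
  have h1 : ∀ κ, iog (Pi.single κ 1) ∈ H := by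
    intro κ
    rw [← wedge_pair, ← comm_X, iog_comm_eq]
    exact H.mul_mem (H.inv_mem (H.mul_mem (hH _) (hH _))) (H.mul_mem (hH _) (hH _))
  have h2 : ∀ (s : Finset (Fin 36)), iog (∑ κ ∈ s, w κ • (Pi.single κ 1 : Fin 36 → ZMod 9)) ∈ H := by
    intro s
    induction s using Finset.induction_on with
    | empty => rw [Finset.sum_empty, iog_zero]; exact H.one_mem
    | insert a s ha ih =>
      rw [Finset.sum_insert ha, iog_add]
      refine H.mul_mem ?_ ih
      obtain ⟨c, hc⟩ := ZMod.intCast_surjective (w a)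
      rw [← hc, iog_zsmul]
      exact H.zpow_mem (h1 a) c
  rw [vec_sum36 w]
  exact h2 _

theorem gen (H : Subgroup G) (hH : ∀ k, mk (X k) ∈ H) : H = ⊤ := by
  have h1 : ∀ (s : Finset (Fin 9)) (a : Fin 9 → ZMod 27),
      ∃ y : F1, mk y ∈ H ∧ y.a = ∑ k ∈ s, a k • (e k : Fin 9 → ZMod 27) := by
    intro s a
    induction s using Finset.induction_on with
    | empty => exact ⟨1, H.one_mem, by rw [Finset.sum_empty]; rfl⟩
    | insert k s hk ih =>
      obtain ⟨y, hy, hya⟩ := ih
      obtain ⟨c, hc⟩ := ZMod.intCast_surjective (a k)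
      have h2 : ∀ n : ℕ, (X k ^ n).a = (n : ZMod 27) • (e k : Fin 9 → ZMod 27) := by
        intro n
        induction n with
        | zero => rw [pow_zero, Nat.cast_zero, zero_smul]; rfl
        | succ n ihn =>
          rw [pow_succ, mul_a, ihn, Nat.cast_succ, add_smul, one_smul]; rfl
      refine ⟨X k ^ (a k).val * y, ?_, ?_⟩
      · have h3 : mk (X k ^ (a k).val * y) = mk (X k) ^ (a k).val * mk y := by
          rw [mk_mul]; congr 1
        rw [h3]
        exact H.mul_mem (H.pow_mem (hH k) _) hy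
      · rw [mul_a, h2, hya, Finset.sum_insert hk, ZMod.natCast_zmod_val]
  rw [Subgroup.eq_top_iff']
  intro g
  obtain ⟨x, rfl⟩ := mk_surj g
  obtain ⟨y, hy, hya⟩ := h1 Finset.univ x.a
  have h4 : y.a = x.a := by
    rw [hya]; exact (vec_eq_sum x.a).symm
  have h5 : x = y * io (y⁻¹ * x).u := by
    have h6 : y⁻¹ * x = io (y⁻¹ * x).u := by
      apply F1.ext
      · rw [mul_a, inv_a, h4, neg_add_cancel]; rfl
      · rfl
    rw [← h6, mul_inv_cancel_left]
  rw [h5, mk_mul]
  exact H.mul_mem hy (iog_mem H hH _)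

end Pool.Agent.Helper712.EG
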