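import Pool.Agent.Helper712.EG.T1

set_option autoImplicit false

namespace Pool.Agent.Helper712.EG

/-- reduction from `ZMod 27` to `ZMod 9` -/
def c9 : ZMod 27 →+* ZMod 9 := ZMod.castHom (by norm_num) (ZMod 9)

/-- reduction from `ZMod 9` to `ZMod 3` -/
def c3 : ZMod 9 →+* ZMod 3 := ZMod.castHom (by norm_num) (ZMod 3)

theorem c9_surj : Function.Surjective c9 := ZMod.castHom_surjective (by norm_num)

theorem c3_surj : Function.Surjective c3 := ZMod.castHom_surjective (by norm_num)

/-- the big group, a central extension of the group we want -/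
@[ext] structure F1 where
  a : Fin 9 → ZMod 27
  u : Fin 36 → ZMod 9

namespace F1

/-- reduction of the first component -/
def b (x : F1) : Fin 9 → ZMod 9 := fun i => c9 (x.a i)

instance : Mul F1 := ⟨fun x y =>
  ⟨x.a + y.a, x.u + y.u + beta x.b y.b + (3 : ZMod 9) • (tau x.u y.b + sigma x.b y.b)⟩⟩

instance : One F1 := ⟨⟨0, 0⟩⟩

instance : Inv F1 := ⟨fun x =>
  ⟨-x.a, (-x.u - beta (-x.b) x.b - (3 : ZMod 9) • sigma (-x.b) x.b) -
    (3 : ZMod 9) • tau (-x.u - beta (-x.b) x.b - (3 : ZMod 9) • sigma (-x.b) x.b) x.b⟩⟩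

theorem mul_a (x y : F1) : (x * y).a = x.a + y.a := rfl

theorem mul_u (x y : F1) : (x * y).u =
    x.u + y.u + beta x.b y.b + (3 : ZMod 9) • (tau x.u y.b + sigma x.b y.b) := rfl

theorem one_a : (1 : F1).a = 0 := rfl

theorem one_u : (1 : F1).u = 0 := rfl

theorem inv_a (x : F1) : (x⁻¹).a = -x.a := rfl

theorem mul_b (x y : F1) : (x * y).b = x.b + y.b := by
  funext i; simp [b, mul_a]

theorem one_b : (1 : F1).b = 0 := by
  funext i; simp [b, one_a]

theorem inv_b (x : F1) : (x⁻¹).b = -x.b := by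
  funext i; simp [b, inv_a]

theorem nine (v : Fin 36 → ZMod 9) : (3 : ZMod 9) • (3 : ZMod 9) • v = 0 := by
  rw [smul_smul]
  have : (3 * 3 : ZMod 9) = 0 := by decide
  rw [this, zero_smul]

theorem mul_assoc' (x y z : F1) : x * y * z = x * (y * z) := by
  apply F1.ext
  · simp only [mul_a, add_assoc]
  · simp only [mul_u, mul_b]
    have h := cocycle x.b y.b z.b
    have h1 : tau (x.u + y.u + beta x.b y.b + (3 : ZMod 9) • (tau x.u y.b + sigma x.b y.b)) z.b =
        tau x.u z.b + tau y.u z.b + tau (beta x.b y.b) z.b +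
          (3 : ZMod 9) • tau (tau x.u y.b + sigma x.b y.b) z.b := by
      rw [tau_add_left, tau_add_left, tau_add_left, tau_smul_left]
    rw [h1, tau_add_right, beta_add_left, beta_add_right]
    have h2 : tau (beta x.b y.b) z.b = sigma y.b z.b + sigma x.b (y.b + z.b)
        - (3 : ZMod 9) • kap x.b y.b z.b - sigma (x.b + y.b) z.b - sigma x.b y.b := by
      rw [← h]; abel
    rw [h2]
    simp only [smul_add, smul_sub, nine]
    abel

theorem one_mul' (x : F1) : 1 * x = x := by
  apply F1.ext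
  · simp [mul_a, one_a]
  · simp [mul_u, one_u, one_b]

theorem inv_aux {V : Type} [AddCommGroup V] (x t t' t'' : V) :
    (-x - t'' - t') - t + x + t'' + (t - 0 + t') = 0 := by
  abel

theorem inv_mul' (x : F1) : x⁻¹ * x = 1 := by
  apply F1.ext
  · simp [mul_a, one_a, inv_a]
  · rw [mul_u, inv_b, one_u]
    have h0 : (x⁻¹).u = (-x.u - beta (-x.b) x.b - (3 : ZMod 9) • sigma (-x.b) x.b) -
      (3 : ZMod 9) • tau (-x.u - beta (-x.b) x.b - (3 : ZMod 9) • sigma (-x.b) x.b) x.b := rfl
    rw [h0, tau_sub_left _ ((3 : ZMod 9) • tau _ _), tau_smul_left]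
    simp only [smul_add, smul_sub (3 : ZMod 9) (tau _ _) ((3 : ZMod 9) • tau _ _), nine]
    exact inv_aux _ _ _ _

instance : Group F1 := Group.ofLeftAxioms mul_assoc' one_mul' inv_mul'

/-- elements of the derived part -/
def io (w : Fin 36 → ZMod 9) : F1 := ⟨0, w⟩

theorem io_b (w : Fin 36 → ZMod 9) : (io w).b = 0 := by
  funext i; simp [b, io]

theorem mul_io (x : F1) (w : Fin 36 → ZMod 9) : x * io w = ⟨x.a, x.u + w⟩ := by
  apply F1.ext
  · simp [mul_a, io]
  · simp only [mul_u, io_b]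
    simp [io]

theorem io_mul (x : F1) (w : Fin 36 → ZMod 9) :
    io w * x = ⟨x.a, w + x.u + (3 : ZMod 9) • tau w x.b⟩ := by
  apply F1.ext
  · simp [mul_a, io]
  · simp only [mul_u, io_b]
    simp [io]

theorem io_mul_io (v w : Fin 36 → ZMod 9) : io v * io w = io (v + w) := by
  rw [mul_io]; rfl

theorem io_zero : io 0 = 1 := rfl

/-- the commutator of two elements, as a vector -/
def comm (x y : F1) : Fin 36 → ZMod 9 :=
  wedge x.b y.b + (3 : ZMod 9) • (tau x.u y.b - tau y.u x.b + sigma x.b y.b - sigma y.b x.b)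

theorem mul_eq_mul_io_comm (x y : F1) : x * y = y * x * io (comm x y) := by
  rw [mul_io]
  apply F1.ext
  · simp [mul_a, add_comm]
  · simp only [mul_u, comm, ← beta_sub_beta, smul_add, smul_sub]
    abel

/-- the relators: `x_k ^ 3 = f_k` -/
def rho (m : Fin 9 → ZMod 27) : F1 := ⟨(3 : ZMod 27) • m, -fm (fun i => c9 (m i))⟩

theorem rho_b (m : Fin 9 → ZMod 27) : (rho m).b = (3 : ZMod 9) • (fun i => c9 (m i)) := by
  funext i
  simp only [b, rho, Pi.smul_apply, smul_eq_mul, map_mul]
  congr 1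

theorem three_sigma_left (a b : Fin 9 → ZMod 9) :
    (3 : ZMod 9) • sigma ((3 : ZMod 9) • a) b = 0 := by
  have : sigma ((3 : ZMod 9) • a) b = (3 : ZMod 9) • (fun μ => ∑ s : Fin 84,
      (-(a (tq s) * b (tp s) * b (tr s)) - 3 * a (tq s) * a (tr s) * b (tp s)
      + a (tr s) * b (tp s) * b (tq s)) * (S s μ : ZMod 9)) := by
    funext μ
    simp only [sigma, Pi.smul_apply, smul_eq_mul, Finset.mul_sum]
    exact Finset.sum_congr rfl fun s _ => by ring
  rw [this, nine]

theorem three_sigma_right (a b : Fin 9 → ZMod 9) :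
    (3 : ZMod 9) • sigma a ((3 : ZMod 9) • b) = 0 := by
  have : sigma a ((3 : ZMod 9) • b) = (3 : ZMod 9) • (fun μ => ∑ s : Fin 84,
      (-(a (tq s) * b (tp s) * (3 * b (tr s))) - a (tq s) * a (tr s) * b (tp s)
      + a (tr s) * b (tp s) * (3 * b (tq s))) * (S s μ : ZMod 9)) := by
    funext μ
    simp only [sigma, Pi.smul_apply, smul_eq_mul, Finset.mul_sum]
    exact Finset.sum_congr rfl fun s _ => by ring
  rw [this, nine]

theorem rho_mul (m m' : Fin 9 → ZMod 27) : rho m * rho m' = rho (m + m') := by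
  apply F1.ext
  · simp [mul_a, rho]
  · rw [mul_u, rho_b, rho_b, smul_add, three_sigma_left, tau_smul_right, nine,
      beta_smul_left, beta_smul_right, nine]
    have : (fun i => c9 ((m + m') i)) = (fun i => c9 (m i)) + fun i => c9 (m' i) := by
      funext i; simp
    simp only [rho, this, fm_add]
    abel

theorem rho_zero : rho 0 = 1 := by
  apply F1.ext
  · simp [rho, one_a]
  · have : (fun i => c9 ((0 : Fin 9 → ZMod 27) i)) = 0 := by funext i; simp
    simp only [rho, this, fm_zero, one_u, neg_zero]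

theorem rho_comm (m : Fin 9 → ZMod 27) (x : F1) : rho m * x = x * rho m := by
  rw [mul_eq_mul_io_comm]
  have h : comm (rho m) x = 0 := by
    obtain ⟨v, hv⟩ := T1 (fun i => c9 (m i)) x.b
    have hu : (rho m).u = -fm (fun i => c9 (m i)) := rfl
    rw [comm, rho_b, hu, wedge_smul_left, tau_neg_left, tau_smul_right, hv, smul_sub, smul_add,
      smul_sub, three_sigma_left, three_sigma_right, smul_neg, smul_add, nine, nine]
    abel
  rw [h, io_zero, mul_one]

/-- the relators form a central subgroup -/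
def RR : Subgroup F1 where
  carrier := Set.range rho
  mul_mem' := by
    rintro _ _ ⟨m, rfl⟩ ⟨m', rfl⟩
    exact ⟨m + m', (rho_mul m m').symm⟩
  one_mem' := ⟨0, rho_zero⟩
  inv_mem' := by
    rintro _ ⟨m, rfl⟩
    refine ⟨-m, ?_⟩
    rw [eq_inv_iff_mul_eq_one, rho_mul, neg_add_cancel, rho_zero]

instance : RR.Normal := ⟨by
  rintro _ ⟨m, rfl⟩ g
  refine ⟨m, ?_⟩
  rw [← rho_comm, mul_assoc, mul_inv_cancel, mul_one]⟩

theorem rho_mem (m : Fin 9 → ZMod 27) : rho m ∈ RR := ⟨m, rfl⟩

instance : Finite F1 := by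
  apply Finite.of_injective (fun x : F1 => (x.a, x.u))
  intro x y h
  simp only [Prod.mk.injEq] at h
  exact F1.ext h.1 h.2

end F1

/-- the group -/
abbrev G : Type := F1 ⧸ F1.RR

instance : Finite G := inferInstance

open F1

/-- projection -/
def mk (x : F1) : G := QuotientGroup.mk' RR x

theorem mk_mul (x y : F1) : mk (x * y) = mk x * mk y := rfl

theorem mk_surj (g : G) : ∃ x : F1, mk x = g := QuotientGroup.mk_surjective g

theorem mk_eq_iff (x y : F1) : mk x = mk y ↔ ∃ m, x * rho m = y := by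
  constructor
  · intro h
    have : x⁻¹ * y ∈ RR := QuotientGroup.eq.1 h
    obtain ⟨m, hm⟩ := this
    exact ⟨m, by rw [hm]; group⟩
  · rintro ⟨m, rfl⟩
    apply QuotientGroup.eq.2
    rw [← mul_assoc, inv_mul_cancel, one_mul]
    exact rho_mem m

theorem three_mul_eq_zero : ∀ z : ZMod 27, 3 * z = 0 → c9 z = 0 := by decide

/-- the derived part embeds -/
theorem mk_io_inj {v w : Fin 36 → ZMod 9} (h : mk (io v) = mk (io w)) : v = w := by
  obtain ⟨m, hm⟩ := (mk_eq_iff _ _).1 h
  have h1 : (3 : ZMod 27) • m = 0 := by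
    have := congrArg F1.a hm
    simpa [mul_a, io, rho] using this
  have h2 : (fun i => c9 (m i)) = 0 := by
    funext i
    apply three_mul_eq_zero
    have := congrFun h1 i
    simpa using this
  have hu : (rho m).u = 0 := by
    have h5 : (rho m).u = -fm (fun i => c9 (m i)) := rfl
    rw [h5, h2, fm_zero, neg_zero]
  have h4 : (rho m).b = 0 := by rw [rho_b, h2, smul_zero]
  have h3 := congrArg F1.u hm
  rw [io_mul] at h3
  change v + (rho m).u + (3 : ZMod 9) • tau v (rho m).b = w at h3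
  rw [hu, h4, tau_zero_right, smul_zero, add_zero, add_zero] at h3
  exact h3

end Pool.Agent.Helper712.EG
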