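import Pool.Agent.Helper712.EG.T2data

set_option autoImplicit false

namespace Pool.Agent.Helper712.EG

abbrev Row := ℕ × ℕ × ℕ × ℕ × ℕ × ℕ × ℕ × ℕ

/-- the table of triples in unpacked form -/
def TL : List Row := [
  (0, 1, 2, 0, 1, 8, 1073741829, 0),
  (0, 1, 3, 0, 2, 9, 512, 0),
  (0, 1, 4, 0, 3, 10, 4366272129, 0),
  (0, 1, 5, 0, 4, 11, 2048, 0),
  (0, 1, 6, 0, 5, 12, 4096, 67109504),
  (0, 1, 7, 0, 6, 13, 8192, 0),
  (0, 1, 8, 0, 7, 14, 16384, 0),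
  (0, 2, 3, 1, 2, 15, 67142272, 0),
  (0, 2, 4, 1, 3, 16, 65536, 0),
  (0, 2, 5, 1, 4, 17, 131072, 67109504),
  (0, 2, 6, 1, 5, 18, 262144, 67109504),
  (0, 2, 7, 1, 6, 19, 131072, 67109512),
  (0, 2, 8, 1, 7, 20, 16416, 0),
  (0, 3, 4, 2, 3, 21, 1073741825, 8212),
  (0, 3, 5, 2, 4, 22, 0, 4294967297),
  (0, 3, 6, 2, 5, 23, 2112, 0),
  (0, 3, 7, 2, 6, 24, 16777216, 0),
  (0, 3, 8, 2, 7, 25, 33554432, 67109504),
  (0, 4, 5, 3, 4, 26, 0, 640),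
  (0, 4, 6, 3, 5, 27, 1073741825, 8214),
  (0, 4, 7, 3, 6, 28, 268435456, 67109504),
  (0, 4, 8, 3, 7, 29, 536870913, 0),
  (0, 5, 6, 4, 5, 30, 1073741825, 0),
  (0, 5, 7, 4, 6, 31, 2147483648, 0),
  (0, 5, 8, 4, 7, 32, 4294967296, 0),
  (0, 6, 7, 5, 6, 33, 8589934592, 0),
  (0, 6, 8, 5, 7, 34, 17179869184, 0),
  (0, 7, 8, 6, 7, 35, 8208, 0),
  (1, 2, 3, 8, 9, 15, 0, 0),
  (1, 2, 4, 8, 10, 16, 1073741825, 2105364),
  (1, 2, 5, 8, 11, 17, 0, 4299161601),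
  (1, 2, 6, 8, 12, 18, 2112, 8388608),
  (1, 2, 7, 8, 13, 19, 67109504, 0),
  (1, 2, 8, 8, 14, 20, 67109504, 0),
  (1, 3, 4, 9, 10, 21, 1, 0),
  (1, 3, 5, 9, 11, 22, 0, 0),
  (1, 3, 6, 9, 12, 23, 0, 0),
  (1, 3, 7, 9, 13, 24, 4299161601, 4),
  (1, 3, 8, 9, 14, 25, 4299161601, 67109504),
  (1, 4, 5, 10, 11, 26, 0, 0),
  (1, 4, 6, 10, 12, 27, 1073741828, 257),
  (1, 4, 7, 10, 13, 28, 1140851329, 2105372),
  (1, 4, 8, 10, 14, 29, 0, 0),
  (1, 5, 6, 11, 12, 30, 0, 0),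
  (1, 5, 7, 11, 13, 31, 0, 4366271121),
  (1, 5, 8, 11, 14, 32, 0, 0),
  (1, 6, 7, 12, 13, 33, 2113, 75498144),
  (1, 6, 8, 12, 14, 34, 0, 0),
  (1, 7, 8, 13, 14, 35, 0, 0),
  (2, 3, 4, 15, 16, 21, 2, 67109504),
  (2, 3, 5, 15, 17, 22, 257, 1073741828),
  (2, 3, 6, 15, 18, 23, 4366795401, 131072),
  (2, 3, 7, 15, 19, 24, 1075847440, 0),
  (2, 3, 8, 15, 20, 25, 4299163713, 75498112),
  (2, 4, 5, 16, 17, 26, 16416, 1048576),
  (2, 4, 6, 16, 18, 27, 2, 67109504),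
  (2, 4, 7, 16, 19, 28, 16416, 1048576),
  (2, 4, 8, 16, 20, 29, 1073741825, 134225942),
  (2, 5, 6, 17, 18, 30, 67109504, 0),
  (2, 5, 7, 17, 19, 31, 0, 67109504),
  (2, 5, 8, 17, 20, 32, 1, 0),
  (2, 6, 7, 18, 19, 33, 1073741825, 201335446),
  (2, 6, 8, 18, 20, 34, 0, 0),
  (2, 7, 8, 19, 20, 35, 0, 0),
  (3, 4, 5, 21, 22, 26, 0, 67109504),
  (3, 4, 6, 21, 23, 27, 0, 67109504),
  (3, 4, 7, 21, 24, 28, 67109568, 0),
  (3, 4, 8, 21, 25, 29, 128, 0),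
  (3, 5, 6, 22, 23, 30, 0, 0),
  (3, 5, 7, 22, 24, 31, 4366271121, 0),
  (3, 5, 8, 22, 25, 32, 0, 0),
  (3, 6, 7, 23, 24, 33, 0, 4366271121),
  (3, 6, 8, 23, 25, 34, 8208, 34359738368),
  (3, 7, 8, 24, 25, 35, 4, 0),
  (4, 5, 6, 26, 27, 30, 0, 0),
  (4, 5, 7, 26, 28, 31, 8212, 38658899969),
  (4, 5, 8, 26, 29, 32, 67109504, 4299161601),
  (4, 6, 7, 27, 28, 33, 524360, 67240576),
  (4, 6, 8, 27, 29, 34, 1048704, 16416),
  (4, 7, 8, 28, 29, 35, 2105372, 1073741825),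
  (5, 6, 7, 30, 31, 33, 67109504, 0),
  (5, 6, 8, 30, 32, 34, 0, 67109504),
  (5, 7, 8, 31, 32, 35, 4366271121, 0),
  (6, 7, 8, 33, 34, 35, 75498144, 2112)]

def trow (s : Fin 84) : Row := ((tp s).val, (tq s).val, (tr s).val, (kpq s).val, (kpr s).val,
  (kqr s).val, (Sm.getD s (0, 0)).1, (Sm.getD s (0, 0)).2)

theorem TL_eq : TL = (List.finRange 84).map trow := by rfl

/-- the linear form of one triple -/
def tterm (o b : ℕ) (t : Row) : Tr :=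
  cond (Nat.beq b t.2.2.1) (unitT (o + t.2.2.2.1))
    (cond (Nat.beq b t.2.1) (negT (unitT (o + t.2.2.2.2.1)))
      (cond (Nat.beq b t.1) (unitT (o + t.2.2.2.2.2.1)) (0, 0)))

def tstep (o b μ : ℕ) (t : Row) (acc : Tr) : Tr :=
  cond (t.2.2.2.2.2.2.1.testBit μ) (addT (tterm o b t) acc)
    (cond (t.2.2.2.2.2.2.2.testBit μ) (addT (negT (tterm o b t)) acc) acc)

def tform (o b μ : ℕ) : Tr := List.rec (0, 0) (fun t _ acc => tstep o b μ t acc) TL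

def signT (c : ℤ) (X : Tr) : Tr := if c = 1 then X else negT X

def sumRow (μ : Fin 36) (L : List (Fin 9 × Fin 9 × ℤ)) : Tr :=
  List.rec (0, 0) (fun t _ acc => addT (signT t.2.2 (addT (tform (36 * t.1.val) t.2.1.val μ.val)
    (negT (tform (36 * t.2.1.val) t.1.val μ.val)))) acc) L

def eqnRow (i : Fin 9) (μ : Fin 36) : Tr :=
  addT (unitT (36 * i.val + μ.val)) (negT (sumRow μ (Fl i)))

def eqT' (X Y : Tr) : Bool := Nat.beq X.1 Y.1 && Nat.beq X.2 Y.2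

def rowCheck (i : Fin 9) : List Tr → List (Fin 36) → Bool
  | E :: L, μ :: K => eqT' E (eqnRow i μ) && rowCheck i L K
  | [], _ => true
  | _ :: _, [] => false

theorem rk0 : rowCheck 0 EL0 (List.finRange 36) = true := by decide +kernel
theorem rk1 : rowCheck 1 EL1 (List.finRange 36) = true := by decide +kernel
theorem rk2 : rowCheck 2 EL2 (List.finRange 36) = true := by decide +kernel
theorem rk3 : rowCheck 3 EL3 (List.finRange 36) = true := by decide +kernel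
theorem rk4 : rowCheck 4 EL4 (List.finRange 36) = true := by decide +kernel
theorem rk5 : rowCheck 5 EL5 (List.finRange 36) = true := by decide +kernel
theorem rk6 : rowCheck 6 EL6 (List.finRange 36) = true := by decide +kernel
theorem rk7 : rowCheck 7 EL7 (List.finRange 36) = true := by decide +kernel
theorem rk8 : rowCheck 8 EL8 (List.finRange 36) = true := by decide +kernel

theorem eq_of_eqT' {X Y : Tr} (h : eqT' X Y = true) : X = Y := by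
  simp only [eqT', Bool.and_eq_true] at h
  exact Prod.ext (Nat.eq_of_beq_eq_true h.1) (Nat.eq_of_beq_eq_true h.2)

theorem rowCheck_spec (i : Fin 9) : ∀ (L : List Tr) (K : List (Fin 36)),
    rowCheck i L K = true → ∀ E ∈ L, ∃ μ, E = eqnRow i μ
  | E :: L, μ :: K, h, E', hE' => by
    simp only [rowCheck, Bool.and_eq_true] at h
    rcases List.mem_cons.1 hE' with h1 | h1
    · subst h1
      exact ⟨μ, eq_of_eqT' h.1⟩
    · exact rowCheck_spec i L K h.2 E' h1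
  | [], _, _, E', hE' => by simp at hE'
  | _ :: _, [], h, _, _ => by simp [rowCheck] at h

/-- every listed form is one of the equations -/
theorem EL_spec : ∀ E ∈ EL, ∃ i μ, E = eqnRow i μ := by
  intro E hE
  simp only [EL, List.mem_append] at hE
  rcases hE with h | h | h | h | h | h | h | h | h
  · exact ⟨0, rowCheck_spec 0 _ _ rk0 E h⟩
  · exact ⟨1, rowCheck_spec 1 _ _ rk1 E h⟩
  · exact ⟨2, rowCheck_spec 2 _ _ rk2 E h⟩
  · exact ⟨3, rowCheck_spec 3 _ _ rk3 E h⟩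
  · exact ⟨4, rowCheck_spec 4 _ _ rk4 E h⟩
  · exact ⟨5, rowCheck_spec 5 _ _ rk5 E h⟩
  · exact ⟨6, rowCheck_spec 6 _ _ rk6 E h⟩
  · exact ⟨7, rowCheck_spec 7 _ _ rk7 E h⟩
  · exact ⟨8, rowCheck_spec 8 _ _ rk8 E h⟩

end Pool.Agent.Helper712.EG
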