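import Pool.Agent.Helper712.EG.T2cert
import Pool.Agent.Helper712.EG.T2rows

set_option autoImplicit false

namespace Pool.Agent.Helper712.EG

/-- the unknowns as one long vector -/
def xv (δ : Fin 9 → Fin 36 → ZMod 3) (n : ℕ) : ZMod 3 :=
  δ (Fin.ofNat 9 (n / 36)) (Fin.ofNat 36 (n % 36))

theorem xv_ix (δ : Fin 9 → Fin 36 → ZMod 3) (i : Fin 9) (κ : Fin 36) :
    xv δ (36 * i.val + κ.val) = δ i κ := by
  have h1 : (36 * i.val + κ.val) / 36 = i.val := by omega
  have h2 : (36 * i.val + κ.val) % 36 = κ.val := by omega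
  have h3 : Fin.ofNat 9 ((36 * i.val + κ.val) / 36) = i := by
    apply Fin.ext; rw [h1]; exact Nat.mod_eq_of_lt i.isLt
  have h4 : Fin.ofNat 36 ((36 * i.val + κ.val) % 36) = κ := by
    apply Fin.ext; rw [h2]; exact Nat.mod_eq_of_lt κ.isLt
  rw [xv, h3, h4]

theorem ix_lt (i : Fin 9) (κ : Fin 36) : 36 * i.val + κ.val < 324 := by omega

theorem sem_unit_ix (δ : Fin 9 → Fin 36 → ZMod 3) (i : Fin 9) (κ : Fin 36) :
    sem (unitT (36 * i.val + κ.val)) (xv δ) = δ i κ := by
  rw [sem_unit (ix_lt i κ), xv_ix]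

theorem beq_fin (b c : Fin 9) : Nat.beq b.val c.val = decide (b = c) := by
  by_cases h : b = c
  · subst h; simp
  · have h1 : b.val ≠ c.val := fun h' => h (Fin.ext h')
    rw [decide_eq_false h]
    cases h2 : Nat.beq b.val c.val
    · rfl
    · exact absurd (Nat.eq_of_beq_eq_true h2) h1

theorem e_apply (b c : Fin 9) : (e b : Fin 9 → ZMod 3) c = if b = c then 1 else 0 := by
  simp only [e, Pi.single_apply]
  by_cases h : b = c
  · simp [h]
  · simp [h, Ne.symm h]

theorem sem_tterm (δ : Fin 9 → Fin 36 → ZMod 3) (a b : Fin 9) (s : Fin 84) :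
    sem (tterm (36 * a.val) b.val (trow s)) (xv δ) =
      δ a (kpq s) * (e b : Fin 9 → ZMod 3) (tr s) - δ a (kpr s) * (e b : Fin 9 → ZMod 3) (tq s)
        + δ a (kqr s) * (e b : Fin 9 → ZMod 3) (tp s) := by
  obtain ⟨h1, h2, h3⟩ := idx_ne s
  simp only [tterm, trow, beq_fin, e_apply]
  by_cases hr : b = tr s
  · have hq : b ≠ tq s := fun h => h3 (h.symm.trans hr)
    have hp : b ≠ tp s := fun h => h2 (h.symm.trans hr)
    rw [if_pos hr, if_neg hq, if_neg hp, decide_eq_true hr]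
    simp only [cond_true]
    rw [sem_unit_ix]; ring
  · by_cases hq : b = tq s
    · have hp : b ≠ tp s := fun h => h1 (h.symm.trans hq)
      rw [if_neg hr, if_pos hq, if_neg hp, decide_eq_false hr, decide_eq_true hq]
      simp only [cond_true, cond_false]
      rw [sem_neg, sem_unit_ix]; ring
    · by_cases hp : b = tp s
      · rw [if_neg hr, if_neg hq, if_pos hp, decide_eq_false hr, decide_eq_false hq,
          decide_eq_true hp]
        simp only [cond_true, cond_false]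
        rw [sem_unit_ix]; ring
      · rw [if_neg hr, if_neg hq, if_neg hp, decide_eq_false hr, decide_eq_false hq,
          decide_eq_false hp]
        simp only [cond_false]
        rw [sem_zero]; ring

theorem sem_tstep (δ : Fin 9 → Fin 36 → ZMod 3) (a b : Fin 9) (μ : Fin 36) (s : Fin 84) (acc : Tr) :
    sem (tstep (36 * a.val) b.val μ.val (trow s) acc) (xv δ) =
      (δ a (kpq s) * (e b : Fin 9 → ZMod 3) (tr s) - δ a (kpr s) * (e b : Fin 9 → ZMod 3) (tq s)
        + δ a (kqr s) * (e b : Fin 9 → ZMod 3) (tp s)) * (S s μ : ZMod 3) + sem acc (xv δ) := by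
  rw [← sem_tterm]
  simp only [tstep, S]
  have e1 : (trow s).2.2.2.2.2.2.1 = (Sm.getD s (0, 0)).1 := rfl
  have e2 : (trow s).2.2.2.2.2.2.2 = (Sm.getD s (0, 0)).2 := rfl
  rw [e1, e2]
  cases hP : (Sm.getD s (0, 0)).1.testBit μ
  · cases hN : (Sm.getD s (0, 0)).2.testBit μ
    · simp only [cond_false, Bool.false_eq_true, if_false]
      simp
    · simp only [cond_false, cond_true, Bool.false_eq_true, if_false, if_true]
      rw [sem_add, sem_neg]
      push_cast
      ring
  · simp only [cond_true, if_true]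
    rw [sem_add]
    push_cast
    ring

theorem sem_tform (δ : Fin 9 → Fin 36 → ZMod 3) (a b : Fin 9) (μ : Fin 36) :
    sem (tform (36 * a.val) b.val μ.val) (xv δ) = tau (δ a) (e b) μ := by
  have h : ∀ L : List (Fin 84),
      sem (List.rec (0, 0) (fun t _ acc => tstep (36 * a.val) b.val μ.val t acc) (L.map trow) : Tr)
        (xv δ) =
      (L.map fun s => (δ a (kpq s) * (e b : Fin 9 → ZMod 3) (tr s)
        - δ a (kpr s) * (e b : Fin 9 → ZMod 3) (tq s)
        + δ a (kqr s) * (e b : Fin 9 → ZMod 3) (tp s)) * (S s μ : ZMod 3)).sum := by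
    intro L
    induction L with
    | nil => exact sem_zero _
    | cons s L ih =>
      rw [List.map_cons, List.map_cons, List.sum_cons, ← ih]
      exact sem_tstep δ a b μ s _
  rw [tform, TL_eq, h, tau, Fin.sum_univ_def]

theorem sem_signT (c : ℤ) (hc : c = 1 ∨ c = -1) (X : Tr) (x : ℕ → ZMod 3) :
    sem (signT c X) x = (c : ZMod 3) * sem X x := by
  rcases hc with h | h
  · subst h; simp [signT]
  · subst h
    simp only [signT]
    rw [if_neg (by decide), sem_neg]
    push_cast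
    ring

theorem Fl_sign : ∀ k : Fin 9, ∀ t ∈ Fl k, t.2.2 = 1 ∨ t.2.2 = -1 := by decide

theorem sem_sumRow (δ : Fin 9 → Fin 36 → ZMod 3) (μ : Fin 36) (L : List (Fin 9 × Fin 9 × ℤ))
    (hL : ∀ t ∈ L, t.2.2 = 1 ∨ t.2.2 = -1) :
    sem (sumRow μ L) (xv δ) = (L.map (fun t => (t.2.2 : ZMod 3) •
      (tau (δ t.1) (e t.2.1) - tau (δ t.2.1) (e t.1)))).sum μ := by
  induction L with
  | nil => exact sem_zero _
  | cons t L ih =>
    have h1 := ih (fun t ht => hL t (List.mem_cons_of_mem _ ht))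
    rw [List.map_cons, List.sum_cons, Pi.add_apply, ← h1]
    show sem (addT (signT t.2.2 (addT (tform (36 * t.1.val) t.2.1.val μ.val)
      (negT (tform (36 * t.2.1.val) t.1.val μ.val)))) (sumRow μ L)) (xv δ) = _
    rw [sem_add, sem_signT _ (hL t List.mem_cons_self), sem_add, sem_neg, sem_tform, sem_tform,
      Pi.smul_apply, Pi.sub_apply, smul_eq_mul, sub_eq_add_neg]

theorem sem_eqnRow (δ : Fin 9 → Fin 36 → ZMod 3)
    (h : ∀ k, δ k = ((Fl k).map (fun t => (t.2.2 : ZMod 3) •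
      (tau (δ t.1) (e t.2.1) - tau (δ t.2.1) (e t.1)))).sum) (i : Fin 9) (μ : Fin 36) :
    sem (eqnRow i μ) (xv δ) = 0 := by
  rw [eqnRow, sem_add, sem_neg, sem_unit_ix, sem_sumRow δ μ (Fl i) (Fl_sign i)]
  have := congrFun (h i) μ
  rw [← this]
  ring

/-- the vector defining the inner part -/
def gv (δ : Fin 9 → Fin 36 → ZMod 3) (j : Fin 9) : ZMod 3 := sem (gform j) (xv δ)

theorem T2 (δ : Fin 9 → Fin 36 → ZMod 3)
    (h : ∀ k, δ k = ((Fl k).map (fun t => (t.2.2 : ZMod 3) •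
      (tau (δ t.1) (e t.2.1) - tau (δ t.2.1) (e t.1)))).sum) :
    ∃ g : Fin 9 → ZMod 3, ∀ k, δ k = wedge (e k) g := by
  refine ⟨gv δ, fun i => ?_⟩
  funext κ
  obtain ⟨p, n, hpn⟩ := cert i κ
  have h1 : sem (comb EL p n) (xv δ) = 0 := by
    apply sem_comb
    intro E hE
    obtain ⟨i', μ', hE'⟩ := EL_spec E hE
    rw [hE']
    exact sem_eqnRow δ h i' μ'
  rw [hpn, Drow, sem_add, sem_add, ix, sem_unit_ix] at h1
  have h2 : sem (if pi κ = i then negT (gform (pj κ)) else (0, 0)) (xv δ) =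
      -((e i : Fin 9 → ZMod 3) (pi κ) * gv δ (pj κ)) := by
    rw [e_apply]
    by_cases hp : pi κ = i
    · rw [if_pos hp, if_pos hp.symm, sem_neg, gv]; ring
    · rw [if_neg hp, if_neg (Ne.symm hp), sem_zero]; ring
  have h3 : sem (if pj κ = i then gform (pi κ) else (0, 0)) (xv δ) =
      (e i : Fin 9 → ZMod 3) (pj κ) * gv δ (pi κ) := by
    rw [e_apply]
    by_cases hp : pj κ = i
    · rw [if_pos hp, if_pos hp.symm, gv]; ring
    · rw [if_neg hp, if_neg (Ne.symm hp), sem_zero]; ring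
  rw [h2, h3] at h1
  have h4 : wedge (e i) (gv δ) κ = (e i : Fin 9 → ZMod 3) (pi κ) * gv δ (pj κ)
      - (e i : Fin 9 → ZMod 3) (pj κ) * gv δ (pi κ) := rfl
  rw [h4]
  linear_combination h1

end Pool.Agent.Helper712.EG
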