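import Pool.Agent.Helper712.EG.Reduce
import Pool.Agent.Helper712.EG.T2

set_option autoImplicit false

namespace Pool.Agent.Helper712.EG

open F1

theorem Fv_eq_comm (k : Fin 9) : (Fv k : Fin 36 → ZMod 9) =
    ((Fl k).map (fun t => (t.2.2 : ZMod 9) • wedge (e t.1) (e t.2.1))).sum := rfl

theorem list_sum_split (L : List (Fin 9 × Fin 9 × ℤ)) (f g : Fin 9 × Fin 9 × ℤ → Fin 36 → ZMod 9) :
    (L.map (fun t => (t.2.2 : ZMod 9) • (f t + (3 : ZMod 9) • g t))).sum =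
    (L.map (fun t => (t.2.2 : ZMod 9) • f t)).sum +
      (3 : ZMod 9) • (L.map (fun t => (t.2.2 : ZMod 9) • g t)).sum := by
  induction L with
  | nil => simp
  | cons t L ih =>
    simp only [List.map_cons, List.sum_cons]
    rw [ih, smul_add, smul_add, smul_comm (t.2.2 : ZMod 9) (3 : ZMod 9)]
    abel

theorem c9_lift (g : Fin 9 → ZMod 3) : ∃ a : Fin 9 → ZMod 27, ∀ i, c3 (c9 (a i)) = g i := by
  have h : ∀ i, ∃ a : ZMod 27, c3 (c9 a) = g i := by
    intro i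
    obtain ⟨b, hb⟩ := c3_surj (g i)
    obtain ⟨a, ha⟩ := c9_surj b
    exact ⟨a, by rw [ha, hb]⟩
  choose a ha using h
  exact ⟨a, ha⟩

/-- second case: the endomorphism is inner up to central elements -/
theorem case_e (φ : G →* G) (Y : Fin 9 → F1) (hY : ∀ k, mk (Y k) = φ (mk (X k)))
    (h1 : ∀ k, c3v (Y k).b = e k) :
    ∃ γ : G, ∀ k, ∃ r, φ (mk (X k)) = γ⁻¹ * mk (X k) * γ * iog ((3 : ZMod 9) • r) := by
  have h2 : ∀ k, ∃ y : F1, mk y = φ (mk (X k)) ∧ y.a = e k := by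
    intro k
    obtain ⟨y, hy, hya⟩ := adjust (x := Y k) (a := e k) (fun i => by
      rw [map_e, map_e]; exact congrFun (h1 k) i)
    exact ⟨y, by rw [hy, hY], hya⟩
  choose Z hZ hZa using h2
  have h3 : ∀ k, c3v (Z k).u = ((Fl k).map (fun t => (t.2.2 : ZMod 3) •
      (tau (c3v (Z t.1).u) (e t.2.1) - tau (c3v (Z t.2.1).u) (e t.1)))).sum := by
    intro k
    have h4 := rel_eq φ Z hZ k
    rw [P_of_e (hZa k)] at h4
    have h5 : ∀ t : Fin 9 × Fin 9 × ℤ, (t.2.2 : ZMod 9) • comm (Z t.1) (Z t.2.1) =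
        (t.2.2 : ZMod 9) • (wedge (e t.1) (e t.2.1) + (3 : ZMod 9) •
          (tau (Z t.1).u (e t.2.1) - tau (Z t.2.1).u (e t.1))) := by
      intro t
      rw [comm_of_e (hZa _) (hZa _)]
    rw [funext h5, list_sum_split, ← Fv_eq_comm] at h4
    have h6 := c3v_of_three (add_left_cancel h4)
    rw [h6, c3v_list_sum, List.map_map]
    refine congrArg List.sum (List.map_congr_left fun t _ => ?_)
    simp only [Function.comp, c3v_smul, c3_int, c3v_sub, c3v_tau, c3v_e]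
  obtain ⟨g, hg⟩ := T2 _ h3
  obtain ⟨a, ha⟩ := c9_lift g
  refine ⟨mk ⟨a, 0⟩, fun k => ?_⟩
  have h7 : c3v (Z k).u = c3v (comm (X k) ⟨a, 0⟩) := by
    rw [hg k, c3v_comm, X_b, c3v_e]
    congr 1
    funext i
    exact (ha i).symm
  obtain ⟨r, hr⟩ := exists_three h7
  refine ⟨r, ?_⟩
  have h8 : Z k = X k * io (Z k).u := by
    rw [mul_io]
    apply F1.ext
    · exact hZa k
    · simp [X]
  rw [← hZ k, h8, hr, mk_mul]
  have h9 : mk (io (comm (X k) ⟨a, 0⟩ + (3 : ZMod 9) • r)) =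
      iog (comm (X k) ⟨a, 0⟩) * iog ((3 : ZMod 9) • r) := iog_add _ _
  rw [h9, iog_comm_eq]
  group

/-- the endomorphism is central-by-inner -/
theorem case_e' (φ : G →* G) (γ : G)
    (h : ∀ k, ∃ r, φ (mk (X k)) = γ⁻¹ * mk (X k) * γ * iog ((3 : ZMod 9) • r)) (g : G) :
    ∃ z ∈ Subgroup.center G, γ * φ g * γ⁻¹ = g * z := by
  let ψ : G →* G := (MulAut.conj γ).toMonoidHom.comp φ
  let q : G →* G ⧸ Subgroup.center G := QuotientGroup.mk' _
  have h1 : (q.comp ψ).eqLocus q = ⊤ := by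
    apply gen
    intro k
    obtain ⟨r, hr⟩ := h k
    show q (γ * φ (mk (X k)) * γ⁻¹) = q (mk (X k))
    have hz := iog_three_central r
    have h2 : q (iog ((3 : ZMod 9) • r)) = 1 := (QuotientGroup.eq_one_iff _).2 hz
    rw [hr]
    simp only [map_mul, map_inv, h2]
    group
  have h2 : g ∈ (q.comp ψ).eqLocus q := by rw [h1]; trivial
  have h3 : q (γ * φ g * γ⁻¹) = q g := h2
  have h4 : g⁻¹ * (γ * φ g * γ⁻¹) ∈ Subgroup.center G := QuotientGroup.eq.1 h3.symm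
  exact ⟨_, h4, by group⟩

theorem engel (x y : G) : Commute x (y⁻¹ * x * y) := by
  obtain ⟨a, rfl⟩ := mk_surj x
  obtain ⟨b, rfl⟩ := mk_surj y
  have h1 : (mk b)⁻¹ * mk a * mk b = mk a * iog (comm a b) := by
    rw [iog_comm_eq]; group
  rw [h1]
  exact (Commute.refl _).mul_right (comm_commute_left a b).symm

theorem lift_exists (φ : G →* G) : ∃ Y : Fin 9 → F1, ∀ k, mk (Y k) = φ (mk (X k)) := by
  have h : ∀ k, ∃ y, mk y = φ (mk (X k)) := fun k => mk_surj _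
  choose Y hY using h
  exact ⟨Y, hY⟩

/-- the dichotomy for endomorphisms -/
theorem endo (φ : G →* G) : (∀ g, φ g ∈ Subgroup.center G) ∨
    ∃ γ : G, ∀ g, ∃ z ∈ Subgroup.center G, γ * φ g * γ⁻¹ = g * z := by
  obtain ⟨Y, hY⟩ := lift_exists φ
  rcases red φ Y hY with h | h
  · exact Or.inl (case_zero φ Y hY h)
  · obtain ⟨γ, hγ⟩ := case_e φ Y hY h
    exact Or.inr ⟨γ, fun g => case_e' φ γ hγ g⟩

theorem commute_image (φ : G →* G) (a : G) : Commute a (φ a) := by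
  rcases endo φ with h | ⟨γ, h⟩
  · exact Subgroup.mem_center_iff.1 (h a) a
  · obtain ⟨z, hz, hza⟩ := h a
    have h1 : φ a = (γ⁻¹ * a * γ) * z := by
      have h2 : φ a = γ⁻¹ * (γ * φ a * γ⁻¹) * γ := by group
      rw [h2, hza]
      have h3 : z * γ = γ * z := (Subgroup.mem_center_iff.1 hz γ).symm
      simp only [mul_assoc]
      rw [h3]
    rw [h1]
    exact (engel a γ).mul_right (Subgroup.mem_center_iff.1 hz a)

end Pool.Agent.Helper712.EG
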