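import Pool.Agent.Helper712.EG.Main
import Pool.Agent.Helper712.EG.Class

set_option autoImplicit false

namespace Pool.Agent.Helper712.EG

open F1
open scoped commutatorElement

theorem not_central (φ : G →* G) (hs : Function.Surjective φ)
    (h : ∀ g, φ g ∈ Subgroup.center G) : False := by
  apply lcs_two_ne
  rw [eq_bot_iff]
  show ⁅Subgroup.lowerCentralSeries (⊤ : Subgroup G) 1, ⊤⁆ ≤ _
  rw [Subgroup.commutator_le]
  intro g _ g' _
  obtain ⟨x, rfl⟩ := hs g'
  have := Subgroup.mem_center_iff.1 (h x) g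
  rw [Subgroup.mem_bot, commutatorElement_eq_one_iff_mul_comm]
  exact this

theorem aut (α : MulAut G) : ∃ β : MulAut G, ∃ h : G,
    (∀ g, g⁻¹ * β g ∈ Subgroup.center G) ∧ α = β * MulAut.conj h := by
  rcases endo α.toMonoidHom with h | ⟨γ, h⟩
  · exact (not_central _ α.surjective h).elim
  · refine ⟨MulAut.conj γ * α, α.symm γ⁻¹, ?_, ?_⟩
    · intro g
      obtain ⟨z, hz, hza⟩ := h g
      have h1 : (MulAut.conj γ * α) g = γ * α g * γ⁻¹ := rfl
      have h2 : γ * α g * γ⁻¹ = g * z := hza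
      rw [h1, h2, inv_mul_cancel_left]
      exact hz
    · apply MulEquiv.ext
      intro g
      have h3 : α (α.symm γ⁻¹) = γ⁻¹ := MulEquiv.apply_symm_apply α γ⁻¹
      show α g = γ * α (α.symm γ⁻¹ * g * (α.symm γ⁻¹)⁻¹) * γ⁻¹
      rw [map_mul α (α.symm γ⁻¹ * g), map_mul α (α.symm γ⁻¹) g, map_inv α (α.symm γ⁻¹), h3]
      group

theorem aut_transfer {G₁ G₂ : Type} [Group G₁] [Group G₂] (me : G₁ ≃* G₂)
    (hP : ∀ α : MulAut G₁, ∃ β : MulAut G₁, ∃ h : G₁,
      (∀ g, g⁻¹ * β g ∈ Subgroup.center G₁) ∧ α = β * MulAut.conj h)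
    (α : MulAut G₂) : ∃ β : MulAut G₂, ∃ h : G₂,
      (∀ g, g⁻¹ * β g ∈ Subgroup.center G₂) ∧ α = β * MulAut.conj h := by
  obtain ⟨β, h, h1, h2⟩ := hP ((me.trans α).trans me.symm)
  refine ⟨(me.symm.trans β).trans me, me h, ?_, ?_⟩
  · intro g
    have h3 := h1 (me.symm g)
    rw [Subgroup.mem_center_iff] at h3 ⊢
    intro x
    have h4 := congrArg me (h3 (me.symm x))
    simpa using h4
  · apply MulEquiv.ext
    intro g
    have h3 := congrArg (fun f : MulAut G₁ => me (f (me.symm g))) h2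
    have h4 : me (((me.trans α).trans me.symm) (me.symm g)) = α g := by simp
    have h5 : me ((β * MulAut.conj h) (me.symm g)) =
        ((me.symm.trans β).trans me * MulAut.conj (me h) : MulAut G₂) g := by
      show me (β (h * me.symm g * h⁻¹)) = me (β (me.symm (me h * g * (me h)⁻¹)))
      simp
    rw [← h4, ← h5]
    exact h3

theorem engel2 (x y : G) : (y * x * y⁻¹ * x⁻¹) * x * (y * x * y⁻¹ * x⁻¹)⁻¹ * x⁻¹ = 1 := by
  have h := engel x y⁻¹
  rw [inv_inv] at h
  have h1 : Commute (y * x * y⁻¹ * x⁻¹) x := (h.symm.mul_left (Commute.inv_left (Commute.refl x)))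
  rw [h1.eq]
  group

theorem perm_model : ∃ (n : ℕ) (H : Subgroup (Equiv.Perm (Fin n))), Nonempty (G ≃* H) ∧
    ∃ f : G →* Equiv.Perm (Fin n), Function.Injective f ∧ (⊤ : Subgroup G).map f = H := by
  obtain ⟨n, ⟨ε⟩⟩ := Finite.exists_equiv_fin G
  let f : G →* Equiv.Perm (Fin n) :=
    (Equiv.permCongrHom ε).toMonoidHom.comp (MulAction.toPermHom G G)
  have hf : Function.Injective f := by
    apply Function.Injective.comp (Equiv.permCongrHom ε).injective
    exact MulAction.toPerm_injective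
  refine ⟨n, f.range, ⟨MonoidHom.ofInjective hf⟩, f, hf, ?_⟩
  exact (MonoidHom.range_eq_map f).symm

theorem lcs_perm {n k : ℕ} {H : Subgroup (Equiv.Perm (Fin n))} {f : G →* Equiv.Perm (Fin n)}
    (hf : Function.Injective f) (hH : (⊤ : Subgroup G).map f = H) :
    Subgroup.lowerCentralSeries H k = ⊥ ↔ Subgroup.lowerCentralSeries (⊤ : Subgroup G) k = ⊥ := by
  rw [← hH, ← Subgroup.map_lowerCentralSeries]
  exact Subgroup.map_eq_bot_iff_of_injective _ hf

theorem final : ∃ (n : ℕ) (H : Subgroup (Equiv.Perm (Fin n))),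
      IsPGroup 3 H ∧
      (∀ x y : H,
        (y * x * y⁻¹ * x⁻¹) * x * (y * x * y⁻¹ * x⁻¹)⁻¹ * x⁻¹ = 1) ∧
      Subgroup.lowerCentralSeries H 3 = ⊥ ∧
      Subgroup.lowerCentralSeries H 2 ≠ ⊥ ∧
      ∀ α : MulAut H, ∃ β : MulAut H, ∃ h : H,
        (∀ g : H, g⁻¹ * β g ∈ Subgroup.center H) ∧ α = β * MulAut.conj h := by
  obtain ⟨n, H, ⟨me⟩, f, hf, hH⟩ := perm_model
  refine ⟨n, H, isPGroup.of_equiv me, ?_, ?_, ?_, aut_transfer me aut⟩
  · intro x y
    have h := congrArg me (engel2 (me.symm x) (me.symm y))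
    simpa using h
  · exact (lcs_perm hf hH).2 lcs_three
  · exact fun h => lcs_two_ne ((lcs_perm hf hH).1 h)

end Pool.Agent.Helper712.EG
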