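import Pool.Agent.Helper712.EG.Gen
import Pool.Agent.Helper712.EG.T3

set_option autoImplicit false

namespace Pool.Agent.Helper712.EG

open F1

/-- reduction modulo three of a vector -/
def c3v {ι : Type} (w : ι → ZMod 9) : ι → ZMod 3 := fun i => c3 (w i)

theorem c3v_add {ι : Type} (v w : ι → ZMod 9) : c3v (v + w) = c3v v + c3v w := by
  funext i; simp [c3v]

theorem c3v_sub {ι : Type} (v w : ι → ZMod 9) : c3v (v - w) = c3v v - c3v w := by
  funext i; simp [c3v]

theorem c3v_zero {ι : Type} : c3v (0 : ι → ZMod 9) = 0 := by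
  funext i; simp [c3v]

theorem c3v_smul {ι : Type} (r : ZMod 9) (w : ι → ZMod 9) : c3v (r • w) = c3 r • c3v w := by
  funext i; simp [c3v]

theorem c3v_three {ι : Type} (w : ι → ZMod 9) : c3v ((3 : ZMod 9) • w) = 0 := by
  rw [c3v_smul]
  have : c3 3 = 0 := by decide
  rw [this, zero_smul]

theorem c3v_list_sum {ι : Type} (L : List (ι → ZMod 9)) : c3v L.sum = (L.map c3v).sum := by
  induction L with
  | nil => exact c3v_zero
  | cons v L ih => rw [List.sum_cons, c3v_add, ih, List.map_cons, List.sum_cons]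

theorem c3_int (c : ℤ) : c3 (c : ZMod 9) = (c : ZMod 3) := by simp

theorem c3v_wedge (a b : Fin 9 → ZMod 9) : c3v (wedge a b) = wedge (c3v a) (c3v b) := by
  funext κ; exact map_wedge c3 a b κ

theorem c3v_tau (a : Fin 36 → ZMod 9) (b : Fin 9 → ZMod 9) :
    c3v (tau a b) = tau (c3v a) (c3v b) := by
  funext κ; exact map_tau c3 a b κ

theorem c3v_e (i : Fin 9) : c3v (e i) = e i := by
  funext κ; exact map_e c3 i κ

theorem c3v_fm (m : Fin 9 → ZMod 9) : c3v (fm m) = fm (c3v m) := by
  funext κ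
  simp only [c3v, fm, Finset.sum_apply, Pi.smul_apply, smul_eq_mul, map_sum, map_mul, map_Fv]

theorem c3v_P (x : F1) : c3v (P x) = fm (c3v x.b) := by
  rw [P, c3v_add, c3v_three, add_zero, c3v_fm]

theorem c3v_comm (x y : F1) : c3v (comm x y) = wedge (c3v x.b) (c3v y.b) := by
  rw [comm_def, c3v_add, c3v_three, add_zero, c3v_wedge]

theorem three_aux : ∀ z : ZMod 9, 3 * z = 0 → c3 z = 0 := by decide
theorem three_aux' : ∀ z : ZMod 9, c3 z = 0 → ∃ w, z = 3 * w := by decide
theorem three_aux27 : ∀ z : ZMod 27, c3 (c9 z) = 0 → ∃ w, z = 3 * w := by decide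

theorem c3v_of_three {ι : Type} {v w : ι → ZMod 9} (h : (3 : ZMod 9) • v = (3 : ZMod 9) • w) :
    c3v v = c3v w := by
  have h1 : c3v (v - w) = 0 := by
    funext i
    apply three_aux
    have := congrFun h i
    simp only [Pi.smul_apply, smul_eq_mul] at this
    rw [Pi.sub_apply, mul_sub, this, sub_self]
  rw [c3v_sub] at h1
  exact sub_eq_zero.1 h1

theorem exists_three {ι : Type} {v w : ι → ZMod 9} (h : c3v v = c3v w) :
    ∃ r, v = w + (3 : ZMod 9) • r := by
  have h1 : ∀ i, ∃ r, v i - w i = 3 * r := by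
    intro i
    apply three_aux'
    rw [map_sub, sub_eq_zero]
    exact congrFun h i
  choose r hr using h1
  refine ⟨r, ?_⟩
  funext i
  rw [Pi.add_apply, Pi.smul_apply, smul_eq_mul, ← hr i]
  ring

theorem exists_three27 {v w : Fin 9 → ZMod 27} (h : ∀ i, c3 (c9 (v i)) = c3 (c9 (w i))) :
    ∃ r, v = w + (3 : ZMod 27) • r := by
  have h1 : ∀ i, ∃ r, v i - w i = 3 * r := by
    intro i
    apply three_aux27
    rw [map_sub, map_sub, sub_eq_zero]
    exact h i
  choose r hr using h1
  refine ⟨r, ?_⟩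
  funext i
  rw [Pi.add_apply, Pi.smul_apply, smul_eq_mul, ← hr i]
  ring

theorem mk_mul_rho (x : F1) (m : Fin 9 → ZMod 27) : mk (x * rho m) = mk x := by
  rw [mk_mul, mk_rho, mul_one]

theorem adjust {x : F1} {a : Fin 9 → ZMod 27} (h : ∀ i, c3 (c9 (x.a i)) = c3 (c9 (a i))) :
    ∃ y : F1, mk y = mk x ∧ y.a = a := by
  obtain ⟨r, hr⟩ := exists_three27 h
  refine ⟨x * rho (-r), mk_mul_rho _ _, ?_⟩
  rw [mul_a, hr]
  simp [rho]

/-- the reduction of an endomorphism satisfies the compatibility -/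
theorem red (φ : G →* G) (Y : Fin 9 → F1) (hY : ∀ k, mk (Y k) = φ (mk (X k))) :
    (∀ k, c3v (Y k).b = 0) ∨ (∀ k, c3v (Y k).b = e k) := by
  apply T3
  intro k
  have h := congrArg c3v (rel_eq φ Y hY k)
  rw [c3v_P, c3v_list_sum, List.map_map] at h
  refine h.trans ?_
  refine congrArg List.sum (List.map_congr_left fun t _ => ?_)
  simp only [Function.comp, c3v_smul, c3_int, c3v_comm]

theorem io_of_a {x : F1} (h : x.a = 0) : x = io x.u := by
  apply F1.ext
  · rw [h]; rfl
  · rfl

/-- first case -/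
theorem case_zero (φ : G →* G) (Y : Fin 9 → F1) (hY : ∀ k, mk (Y k) = φ (mk (X k)))
    (h0 : ∀ k, c3v (Y k).b = 0) : ∀ g, φ g ∈ Subgroup.center G := by
  have h1 : ∀ k, ∃ w : Fin 36 → ZMod 9, mk (io w) = φ (mk (X k)) := by
    intro k
    obtain ⟨y, hy, hya⟩ := adjust (x := Y k) (a := 0) (fun i => by
      rw [Pi.zero_apply, map_zero, map_zero]; exact congrFun (h0 k) i)
    exact ⟨y.u, by rw [← io_of_a hya, hy, hY]⟩
  choose w hw using h1
  have h2 : ∀ k, (3 : ZMod 9) • w k = 0 := by
    intro k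
    have h3 := rel_eq φ (fun k => io (w k)) hw k
    rw [P_io] at h3
    rw [h3]
    simp only [comm_io, smul_zero]
    induction Fl k with
    | nil => rfl
    | cons t L ih => rw [List.map_cons, List.sum_cons, ih, zero_add]
  have h4 : ∀ k, φ (mk (X k)) ∈ Subgroup.center G := by
    intro k
    have h5 : c3v (w k) = c3v 0 := c3v_of_three (by rw [h2, smul_zero])
    obtain ⟨r, hr⟩ := exists_three h5
    rw [← hw k, hr, zero_add]
    exact iog_three_central r
  have h6 := gen ((Subgroup.center G).comap φ) h4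
  intro g
  have : g ∈ (Subgroup.center G).comap φ := by rw [h6]; trivial
  exact this

end Pool.Agent.Helper712.EG
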