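import Pool.Agent.Helper712.EG.Group

set_option autoImplicit false

namespace Pool.Agent.Helper712.EG

open F1

theorem nine' (v : Fin 36 → ZMod 9) : (3 : ZMod 9) • (3 : ZMod 9) • v = 0 := F1.nine v

/-- the derived part inside `G` -/
def iog (w : Fin 36 → ZMod 9) : G := mk (io w)

theorem iog_add (v w : Fin 36 → ZMod 9) : iog (v + w) = iog v * iog w := by
  rw [iog, iog, iog, ← mk_mul, io_mul_io]

theorem iog_zero : iog 0 = 1 := rfl

theorem iog_inj {v w : Fin 36 → ZMod 9} (h : iog v = iog w) : v = w := mk_io_inj h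

/-- the same as a homomorphism -/
def iogHom : Multiplicative (Fin 36 → ZMod 9) →* G where
  toFun w := iog (Multiplicative.toAdd w)
  map_one' := iog_zero
  map_mul' _ _ := iog_add _ _

theorem iog_eq (w : Fin 36 → ZMod 9) : iog w = iogHom (Multiplicative.ofAdd w) := rfl

theorem iog_neg (w : Fin 36 → ZMod 9) : iog (-w) = (iog w)⁻¹ := by
  rw [iog_eq, iog_eq, ofAdd_neg, map_inv]

theorem iog_zsmul (c : ℤ) (w : Fin 36 → ZMod 9) : iog ((c : ZMod 9) • w) = iog w ^ c := by
  have : (c : ZMod 9) • w = c • w := by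
    funext i; simp
  rw [this, iog_eq, iog_eq, ofAdd_zsmul, map_zpow]

theorem iog_list_sum (L : List (Fin 36 → ZMod 9)) : iog L.sum = (L.map iog).prod := by
  induction L with
  | nil => exact iog_zero
  | cons v L ih => rw [List.sum_cons, iog_add, ih, List.map_cons, List.prod_cons]

theorem comm_def (x y : F1) : comm x y = wedge x.b y.b +
    (3 : ZMod 9) • (tau x.u y.b - tau y.u x.b + sigma x.b y.b - sigma y.b x.b) := rfl

theorem mk_comm (x y : F1) : mk x * mk y = mk y * mk x * iog (comm x y) := by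
  rw [← mk_mul, mul_eq_mul_io_comm]; rfl

theorem iog_comm_eq (x y : F1) : iog (comm x y) = (mk y * mk x)⁻¹ * (mk x * mk y) := by
  rw [mk_comm x y]; group

theorem mk_rho (m : Fin 9 → ZMod 27) : mk (rho m) = 1 :=
  (QuotientGroup.eq_one_iff _).2 (rho_mem m)

theorem iog_three_central (w : Fin 36 → ZMod 9) : iog ((3 : ZMod 9) • w) ∈ Subgroup.center G := by
  rw [Subgroup.mem_center_iff]
  intro g
  obtain ⟨x, rfl⟩ := mk_surj g
  rw [iog, ← mk_mul, ← mk_mul, mul_io, io_mul, tau_smul_left, nine', add_zero, add_comm]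

/-- commuting with the derived part -/
theorem iog_commute_iff {w : Fin 36 → ZMod 9} {x : F1} (h : (3 : ZMod 9) • tau w x.b = 0) :
    Commute (iog w) (mk x) := by
  show iog w * mk x = mk x * iog w
  rw [iog, ← mk_mul, ← mk_mul, mul_io, io_mul, h, add_zero, add_comm]

theorem comm_commute_right (x y : F1) : Commute (iog (comm x y)) (mk y) := by
  apply iog_commute_iff
  rw [comm_def, tau_add_left, tau_wedge_self, tau_smul_left, zero_add, nine']

theorem comm_commute_left (x y : F1) : Commute (iog (comm x y)) (mk x) := by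
  apply iog_commute_iff
  rw [comm_def, tau_add_left, tau_wedge_self', tau_smul_left, zero_add, nine']

/-- the generators -/
def X (k : Fin 9) : F1 := ⟨e k, 0⟩

theorem b_of_e {x : F1} {k : Fin 9} (h : x.a = e k) : x.b = e k := by
  funext i
  simp only [F1.b, h, map_e]

theorem X_b (k : Fin 9) : (X k).b = e k := b_of_e rfl

theorem sigma_e_e {R : Type} [CommRing R] (r s : R) (i j : Fin 9) :
    sigma (r • e i) (s • e j) = (0 : Fin 36 → R) := by
  funext μ
  simp only [sigma, Pi.zero_apply]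
  refine Finset.sum_eq_zero fun t _ => ?_
  obtain ⟨h1, h2, h3⟩ := idx_ne t
  have key : ∀ (k : Fin 9) (p q : Fin 9), p ≠ q →
      (e k : Fin 9 → R) p * (e k : Fin 9 → R) q = 0 := by
    intro k p q hpq
    by_cases hp : p = k
    · have hq : q ≠ k := fun h => hpq (hp.trans h.symm)
      simp [e, hq]
    · simp [e, hp]
  have k1 := key j (tp t) (tr t) h2
  have k2 := key i (tq t) (tr t) h3
  have k3 := key j (tp t) (tq t) h1
  simp only [Pi.smul_apply, smul_eq_mul]
  have : (-(r * (e i : Fin 9 → R) (tq t) * (s * (e j : Fin 9 → R) (tp t)) * (s * (e j : Fin 9 → R) (tr t)))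
      - r * (e i : Fin 9 → R) (tq t) * (r * (e i : Fin 9 → R) (tr t)) * (s * (e j : Fin 9 → R) (tp t))
      + r * (e i : Fin 9 → R) (tr t) * (s * (e j : Fin 9 → R) (tp t)) * (s * (e j : Fin 9 → R) (tq t)))
      = -(r * s * s * (e i : Fin 9 → R) (tq t)) * ((e j : Fin 9 → R) (tp t) * (e j : Fin 9 → R) (tr t))
      - (r * r * s * (e j : Fin 9 → R) (tp t)) * ((e i : Fin 9 → R) (tq t) * (e i : Fin 9 → R) (tr t))
      + (r * s * s * (e i : Fin 9 → R) (tr t)) * ((e j : Fin 9 → R) (tp t) * (e j : Fin 9 → R) (tq t)) := by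
    ring
  rw [this, k1, k2, k3]
  ring

theorem sigma_e_e' {R : Type} [CommRing R] (i j : Fin 9) :
    sigma (e i : Fin 9 → R) (e j) = 0 := by
  have := sigma_e_e (1 : R) 1 i j
  simpa using this

theorem beta_e_self {R : Type} [CommRing R] (i : Fin 9) :
    beta (e i : Fin 9 → R) (e i) = 0 := by
  funext κ
  simp only [beta, Pi.zero_apply, neg_eq_zero]
  by_cases h : pj κ = i
  · have : pi κ ≠ i := fun h' => pair_ne κ (h'.trans h.symm)
    simp [e, this]
  · simp [e, h]

theorem comm_of_e {x y : F1} {i j : Fin 9} (hx : x.a = e i) (hy : y.a = e j) :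
    comm x y = wedge (e i) (e j) + (3 : ZMod 9) • (tau x.u (e j) - tau y.u (e i)) := by
  rw [comm_def, b_of_e hx, b_of_e hy, sigma_e_e', sigma_e_e', add_zero, sub_zero]

theorem comm_X (i j : Fin 9) : comm (X i) (X j) = wedge (e i) (e j) := by
  rw [comm_of_e rfl rfl]
  simp [X]

/-- the correction term of the cube map -/
def Q (x : F1) : Fin 36 → ZMod 9 :=
  x.u + beta x.b x.b + tau (beta x.b x.b) x.b + sigma x.b x.b + sigma ((2 : ZMod 9) • x.b) x.b

def P (x : F1) : Fin 36 → ZMod 9 := fm x.b + (3 : ZMod 9) • Q x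

theorem cube_aux {V : Type} [AddCommGroup V] (u b t s tb s2 f : V) (h : t + (t + t) = 0) :
    u + u + b + (t + s) + u + (b + b) + (t + t + tb + 0 + s2) =
      -f + (f + (u + u + u + (b + b + b) + tb + s + s2)) := by
  have h1 : u + u + b + (t + s) + u + (b + b) + (t + t + tb + 0 + s2) =
      (u + u + u + (b + b + b) + tb + s + s2) + (t + (t + t)) := by abel
  rw [h1, h]
  abel

theorem cube_eq (x : F1) : x * x * x = rho x.a * io (P x) := by
  rw [mul_io]
  apply F1.ext
  · simp only [mul_a, rho]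
    have : (3 : ZMod 27) = 1 + 1 + 1 := by decide
    rw [this, add_smul, add_smul, one_smul]
  · have h2 : (x * x).b = (2 : ZMod 9) • x.b := by
      rw [mul_b]
      have : (2 : ZMod 9) = 1 + 1 := by decide
      rw [this, add_smul, one_smul]
    have hr : (rho x.a).u = -fm x.b := rfl
    have h3 : (3 : ZMod 9) = 1 + 1 + 1 := by decide
    rw [mul_u, h2, mul_u, hr, P, Q, tau_add_left, tau_add_left, tau_add_left, tau_smul_left,
      beta_smul_left]
    simp only [smul_add (3 : ZMod 9), nine']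
    have h4 : (3 : ZMod 9) • x.u = x.u + x.u + x.u := by
      rw [h3, add_smul, add_smul, one_smul]
    have h5 : (2 : ZMod 9) • beta x.b x.b = beta x.b x.b + beta x.b x.b := by
      have : (2 : ZMod 9) = 1 + 1 := by decide
      rw [this, add_smul, one_smul]
    have h6 : (3 : ZMod 9) • beta x.b x.b = beta x.b x.b + beta x.b x.b + beta x.b x.b := by
      rw [h3, add_smul, add_smul, one_smul]
    have h7 : (3 : ZMod 9) • tau x.u x.b + ((3 : ZMod 9) • tau x.u x.b + (3 : ZMod 9) • tau x.u x.b)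
        = 0 := by
      rw [← add_smul, ← add_smul]
      have : (3 + (3 + 3) : ZMod 9) = 0 := by decide
      rw [this, zero_smul]
    rw [h4, h5, h6]
    exact cube_aux _ _ _ _ _ _ _ h7

theorem mk_cube (x : F1) : mk x ^ 3 = iog (P x) := by
  have h : mk x ^ 3 = mk (x * x * x) := by
    rw [mk_mul, mk_mul, pow_succ, pow_two]
  rw [h, cube_eq, mk_mul, mk_rho, one_mul]
  rfl

theorem Q_of_e {x : F1} {k : Fin 9} (h : x.a = e k) : Q x = x.u := by
  have h1 := sigma_e_e (2 : ZMod 9) 1 k k
  rw [one_smul] at h1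
  rw [Q, b_of_e h, beta_e_self, tau_zero_left, sigma_e_e', h1]
  simp

theorem P_of_e {x : F1} {k : Fin 9} (h : x.a = e k) : P x = Fv k + (3 : ZMod 9) • x.u := by
  rw [P, Q_of_e h, b_of_e h, fm_e]

theorem P_X (k : Fin 9) : P (X k) = Fv k := by
  rw [P_of_e rfl]
  simp [X]

theorem P_io (w : Fin 36 → ZMod 9) : P (io w) = (3 : ZMod 9) • w := by
  rw [P, Q, io_b]
  simp [io]

theorem comm_io (v w : Fin 36 → ZMod 9) : comm (io v) (io w) = 0 := by
  rw [comm_def, io_b, io_b]
  have : wedge (0 : Fin 9 → ZMod 9) 0 = 0 := by funext κ; simp [wedge]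
  simp [this]

/-- the defining relation, mapped by an endomorphism -/
theorem rel_eq (φ : G →* G) (Y : Fin 9 → F1) (hY : ∀ k, mk (Y k) = φ (mk (X k))) (k : Fin 9) :
    P (Y k) = ((Fl k).map (fun t => (t.2.2 : ZMod 9) • comm (Y t.1) (Y t.2.1))).sum := by
  apply iog_inj
  rw [← mk_cube, hY, ← map_pow, mk_cube, P_X, Fv, iog_list_sum, map_list_prod, iog_list_sum]
  simp only [List.map_map]
  congr 1
  refine List.map_congr_left fun t _ => ?_
  simp only [Function.comp, iog_zsmul, map_zpow]
  rw [← comm_X, iog_comm_eq, iog_comm_eq]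
  simp only [map_mul, map_inv, ← hY]

end Pool.Agent.Helper712.EG
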