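import Pool.Agent.Helper712.EG.Basic

set_option autoImplicit false

namespace Pool.Agent.Helper712.EG

/-- for `k`, `j` the triples `s` occurring in `f(e_k) ∧ e_j`, with coefficients -/
def T1tab : List (List (List (Fin 84 × ℤ))) := [
  [[(0, 1), (13, 1), (22, 1), (27, 1)], [(34, 1), (43, 1), (48, 1)], [(49, 1), (58, 1), (63, 1)], [(28, 1), (68, 1), (73, 1)], [(29, 1), (74, 1), (79, 1)], [(30, 1), (64, 1), (82, 1)], [(31, 1), (65, 1), (83, 1)], [(32, 1), (66, 1), (80, 1)], [(33, 1), (67, 1), (81, 1)]],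
  [[(14, 1), (24, 1)], [(35, 1), (45, 1)], [(0, 1), (50, 1), (60, 1)], [(1, 1), (70, 1)], [(2, 1), (64, -1), (76, 1)], [(3, 1)], [(4, 1), (68, 1), (81, -1)], [(5, 1), (69, 1), (82, -1)], [(6, 1), (70, 1)]],
  [[(13, -1), (19, 1)], [(0, -1), (34, -1), (40, 1)], [(49, -1), (55, 1)], [(7, 1), (65, 1)], [(8, 1)], [(9, 1), (64, -1), (74, -1)], [(10, 1), (65, -1)], [(11, 1), (66, -1), (77, 1)], [(12, 1), (67, -1), (78, 1)]],
  [[(0, -1), (22, 1)], [(1, -1), (43, 1)], [(7, -1), (58, 1)], [(28, -1), (68, 1)], [(13, 1), (29, -1), (74, 1)], [(14, 1), (30, -1)], [(15, 1), (31, -1)], [(16, 1), (32, -1), (80, 1)], [(17, 1), (33, -1), (81, 1)]],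
  [[(9, -1), (11, 1)], [(2, -1), (30, -1), (32, 1)], [(8, -1)], [(13, -1), (50, 1), (52, -1)], [(54, 1), (56, -1)], [(18, 1), (59, -1)], [(19, 1), (58, -1), (61, -1)], [(20, 1), (59, -1)], [(21, 1), (60, -1), (63, 1)]],
  [[(5, 1), (27, -1)], [(3, -1), (48, -1)], [(9, -1), (32, -1), (63, -1)], [(14, -1), (37, -1), (73, -1)], [(18, -1), (41, -1), (79, -1)], [(44, -1), (82, -1)], [(22, 1), (46, -1), (83, -1)], [(23, 1)], [(24, 1), (48, 1)]],
  [[(6, 1), (12, -1)], [(4, -1), (33, -1)], [(10, -1), (33, -1)], [(15, -1), (38, -1), (53, 1)], [(19, -1), (42, -1), (57, 1)], [(22, -1), (45, -1), (60, 1)], [(47, -1), (62, 1)], [(25, 1), (48, -1), (63, 1)], [(26, 1)]],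
  [[(3, 1), (15, -1)], [(5, -1), (36, -1)], [(11, -1), (30, -1), (51, -1)], [(16, -1), (35, -1)], [(20, -1), (39, -1), (65, 1)], [(23, -1), (68, 1)], [(25, -1), (43, 1)], [(44, 1), (71, -1)], [(27, 1), (45, 1), (72, -1)]],
  [[(1, 1), (18, 1)], [(6, -1), (39, 1)], [(12, -1), (28, -1), (54, 1)], [(17, -1), (64, 1)], [(21, -1), (34, 1)], [(24, -1), (35, 1)], [(26, -1), (36, 1), (74, 1)], [(27, -1), (37, 1), (75, 1)], [(38, 1), (76, 1)]]]

def T1e (k j : Fin 9) : List (Fin 84 × ℤ) := (T1tab.getD k []).getD j []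

theorem T1_coef : ∀ k j : Fin 9, ∀ s : Fin 84,
    ((Fv k (kpq s) * e j (tr s) - Fv k (kpr s) * e j (tq s) + Fv k (kqr s) * e j (tp s) : ℤ)) =
      ((T1e k j).map (fun t => if t.1 = s then t.2 else 0)).sum := by
  decide +kernel

theorem T1_val : ∀ k j : Fin 9, ∀ μ : Fin 36,
    (3 : ℤ) ∣ ((T1e k j).map (fun t => t.2 * S t.1 μ)).sum - wedge (e k) (e j) μ := by
  decide +kernel

theorem list_coef (L : List (Fin 84 × ℤ)) (g : Fin 84 → ℤ) :
    ∑ s : Fin 84, ((L.map (fun t => if t.1 = s then t.2 else 0)).sum) * g s =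
      (L.map (fun t => t.2 * g t.1)).sum := by
  induction L with
  | nil => simp
  | cons t L ih =>
    simp only [List.map_cons, List.sum_cons, add_mul, Finset.sum_add_distrib, ih]
    simp

theorem T1_int (k j : Fin 9) (μ : Fin 36) :
    (3 : ℤ) ∣ tau (Fv k) (e j) μ - wedge (e k) (e j) μ := by
  have h : (tau (Fv k) (e j) μ : ℤ) = ((T1e k j).map (fun t => t.2 * S t.1 μ)).sum := by
    rw [← list_coef (T1e k j) (fun s => S s μ)]
    simp only [tau]
    refine Finset.sum_congr rfl fun s _ => ?_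
    rw [T1_coef]
    simp
  rw [h]
  exact T1_val k j μ

section Map

variable {R R' : Type} [CommRing R] [CommRing R'] (φ : R →+* R')

theorem map_tau (u : Fin 36 → R) (b : Fin 9 → R) (μ : Fin 36) :
    φ (tau u b μ) = tau (fun κ => φ (u κ)) (fun i => φ (b i)) μ := by
  simp [tau]

theorem map_sigma (a b : Fin 9 → R) (μ : Fin 36) :
    φ (sigma a b μ) = sigma (fun i => φ (a i)) (fun i => φ (b i)) μ := by
  simp [sigma]

theorem map_wedge (a b : Fin 9 → R) (κ : Fin 36) :
    φ (wedge a b κ) = wedge (fun i => φ (a i)) (fun i => φ (b i)) κ := by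
  simp [wedge]

theorem map_beta (a b : Fin 9 → R) (κ : Fin 36) :
    φ (beta a b κ) = beta (fun i => φ (a i)) (fun i => φ (b i)) κ := by
  simp [beta]

theorem map_e (j i : Fin 9) : φ (e j i) = e j i := by
  by_cases h : i = j
  · subst h; simp [e]
  · simp [e, h]

theorem list_sum_apply {ι : Type} (L : List (ι → R)) (i : ι) :
    L.sum i = (L.map (fun f => f i)).sum := by
  induction L with
  | nil => rfl
  | cons f L ih => simp [ih]

theorem map_Fv (k : Fin 9) (κ : Fin 36) : φ (Fv k κ) = Fv k κ := by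
  simp only [Fv, list_sum_apply, List.map_map, map_list_sum]
  congr 1
  refine List.map_congr_left fun t _ => ?_
  simp only [Function.comp, Pi.smul_apply, smul_eq_mul, map_mul, map_intCast, map_wedge]
  simp only [wedge, map_e]

end Map

theorem T1_basis (R : Type) [CommRing R] (k j : Fin 9) :
    ∃ v : Fin 36 → R, tau (Fv k) (e j) = wedge (e k) (e j) + (3 : R) • v := by
  have h : ∀ μ : Fin 36, ∃ q : ℤ, tau (Fv k) (e j) μ - wedge (e k) (e j) μ = 3 * q :=
    fun μ => T1_int k j μ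
  choose q hq using h
  refine ⟨fun μ => (q μ : R), ?_⟩
  funext μ
  have h1 := congrArg (Int.castRingHom R) (hq μ)
  rw [map_sub, map_tau, map_wedge] at h1
  simp only [map_Fv, map_e, map_mul, map_ofNat] at h1
  have h2 : (fun κ : Fin 36 => (Fv k κ : R)) = Fv k := rfl
  have h3 : (fun i : Fin 9 => (e j i : R)) = e j := rfl
  have h4 : (fun i : Fin 9 => (e k i : R)) = e k := rfl
  simp only [h2, h3, h4] at h1
  simp only [Pi.add_apply, Pi.smul_apply, smul_eq_mul]
  rw [sub_eq_iff_eq_add] at h1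
  rw [h1]
  simp
  ring

variable {R : Type} [CommRing R]

theorem tau_sum_right {ι : Type} (s : Finset ι) (u : Fin 36 → R) (f : ι → Fin 9 → R) :
    tau u (∑ i ∈ s, f i) = ∑ i ∈ s, tau u (f i) :=
  map_sum (AddMonoidHom.mk' (tau u) (tau_add_right u)) f s

theorem tau_sum_left {ι : Type} (s : Finset ι) (f : ι → Fin 36 → R) (b : Fin 9 → R) :
    tau (∑ i ∈ s, f i) b = ∑ i ∈ s, tau (f i) b :=
  map_sum (AddMonoidHom.mk' (fun u => tau u b) (fun u v => tau_add_left u v b)) f s

theorem wedge_sum_right {ι : Type} (s : Finset ι) (u : Fin 9 → R) (f : ι → Fin 9 → R) :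
    wedge u (∑ i ∈ s, f i) = ∑ i ∈ s, wedge u (f i) :=
  map_sum (AddMonoidHom.mk' (wedge u) (wedge_add_right u)) f s

theorem wedge_sum_left {ι : Type} (s : Finset ι) (f : ι → Fin 9 → R) (b : Fin 9 → R) :
    wedge (∑ i ∈ s, f i) b = ∑ i ∈ s, wedge (f i) b :=
  map_sum (AddMonoidHom.mk' (fun u => wedge u b) (fun u v => wedge_add_left u v b)) f s

theorem vec_eq_sum (b : Fin 9 → R) : b = ∑ j, b j • e j := by
  funext i
  simp [e, Finset.sum_apply, Pi.single_apply]

/-- `f` extended linearly -/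
def fm (m : Fin 9 → R) : Fin 36 → R := ∑ k, m k • Fv k

theorem fm_add (m m' : Fin 9 → R) : fm (m + m') = fm m + fm m' := by
  simp [fm, add_smul, Finset.sum_add_distrib]

theorem fm_smul (r : R) (m : Fin 9 → R) : fm (r • m) = r • fm m := by
  simp [fm, Finset.smul_sum, mul_smul]

@[simp] theorem fm_zero : fm (0 : Fin 9 → R) = 0 := by simp [fm]

theorem fm_neg (m : Fin 9 → R) : fm (-m) = -fm m := by simp [fm]

theorem fm_e (k : Fin 9) : fm (e k : Fin 9 → R) = Fv k := by
  simp [fm, e, Pi.single_apply]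

theorem tau_expand (m b : Fin 9 → R) :
    tau (fm m) b = ∑ k, ∑ j, (m k * b j) • tau (Fv k) (e j) := by
  have h : tau (fm m) b = tau (fm m) (∑ j, b j • e j) := by rw [← vec_eq_sum b]
  rw [h, fm, tau_sum_left]
  simp only [tau_sum_right, tau_smul_left, tau_smul_right, smul_smul, mul_comm]

theorem wedge_expand (m b : Fin 9 → R) :
    wedge m b = ∑ k, ∑ j, (m k * b j) • wedge (e k) (e j) := by
  have h : wedge m b = wedge (∑ k, m k • e k) (∑ j, b j • e j) := by
    rw [← vec_eq_sum b, ← vec_eq_sum m]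
  rw [h, wedge_sum_left]
  simp only [wedge_sum_right, wedge_smul_left, wedge_smul_right, smul_smul, mul_comm]

/-- `t(f(m) ∧ b) = m ∧ b` modulo 3 -/
theorem T1 (m b : Fin 9 → R) : ∃ v : Fin 36 → R, tau (fm m) b = wedge m b + (3 : R) • v := by
  choose v hv using fun k j => T1_basis R k j
  refine ⟨∑ k, ∑ j, (m k * b j) • v k j, ?_⟩
  rw [tau_expand, wedge_expand]
  simp only [hv, smul_add, Finset.sum_add_distrib, Finset.smul_sum]
  congr 1
  refine Finset.sum_congr rfl fun k _ => Finset.sum_congr rfl fun j _ => ?_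
  simp only [smul_smul]
  congr 1
  ring

end Pool.Agent.Helper712.EG
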