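import Pool.Agent.Helper712.EG.T2data

set_option autoImplicit false

namespace Pool.Agent.Helper712.EG

/-- index of the coordinate `κ` of the `i`-th vector -/
def ix (i : Fin 9) (κ : Fin 36) : ℕ := 36 * i.val + κ.val

def gform (j : Fin 9) : Tr := if j.val = 0 then negT (unitT 36) else unitT (j.val - 1)

def Drow (i : Fin 9) (κ : Fin 36) : Tr :=
  addT (unitT (ix i κ)) (addT (if pi κ = i then negT (gform (pj κ)) else (0, 0))
    (if pj κ = i then gform (pi κ) else (0, 0)))

def eqT (X Y : Tr) : Bool := Nat.beq X.1 Y.1 && Nat.beq X.2 Y.2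

theorem eq_of_eqT {X Y : Tr} (h : eqT X Y = true) : X = Y := by
  simp only [eqT, Bool.and_eq_true] at h
  exact Prod.ext (Nat.eq_of_beq_eq_true h.1) (Nat.eq_of_beq_eq_true h.2)

def zipCheck (f : Fin 9 × Fin 36 → Tr) (g : Tr → Tr) : List Tr → List (Fin 9 × Fin 36) → Bool
  | M :: L, t :: K => eqT (g M) (f t) && zipCheck f g L K
  | _, [] => true
  | [], _ :: _ => false

theorem zipCheck_spec (f : Fin 9 × Fin 36 → Tr) (g : Tr → Tr) :
    ∀ (L : List Tr) (K : List (Fin 9 × Fin 36)), zipCheck f g L K = true →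
      ∀ t ∈ K, ∃ M ∈ L, g M = f t
  | M :: L, t :: K, h, t', ht' => by
    simp only [zipCheck, Bool.and_eq_true] at h
    rcases List.mem_cons.1 ht' with h1 | h1
    · subst h1
      exact ⟨M, List.mem_cons_self, eq_of_eqT h.1⟩
    · obtain ⟨M', hM', h2⟩ := zipCheck_spec f g L K h.2 t' h1
      exact ⟨M', List.mem_cons_of_mem _ hM', h2⟩
  | _, [], _, t', ht' => by simp at ht'
  | [], _ :: _, h, _, _ => by simp [zipCheck] at h

def allIdx (i : Fin 9) : List (Fin 9 × Fin 36) := (List.finRange 36).map fun κ => (i, κ)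

theorem mem_allIdx (i : Fin 9) (κ : Fin 36) : (i, κ) ∈ allIdx i :=
  List.mem_map.2 ⟨κ, List.mem_finRange κ, rfl⟩

def chk (L : List Tr) (i : Fin 9) : Bool :=
  zipCheck (fun t => Drow t.1 t.2) (fun M => comb EL M.1 M.2) L (allIdx i)

theorem ck0 : chk ML0 0 = true := by decide +kernel
theorem ck1 : chk ML1 1 = true := by decide +kernel
theorem ck2 : chk ML2 2 = true := by decide +kernel
theorem ck3 : chk ML3 3 = true := by decide +kernel
theorem ck4 : chk ML4 4 = true := by decide +kernel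
theorem ck5 : chk ML5 5 = true := by decide +kernel
theorem ck6 : chk ML6 6 = true := by decide +kernel
theorem ck7 : chk ML7 7 = true := by decide +kernel
theorem ck8 : chk ML8 8 = true := by decide +kernel

theorem cert_of_chk {L : List Tr} {i : Fin 9} (h : chk L i = true) (κ : Fin 36) :
    ∃ p n, comb EL p n = Drow i κ := by
  obtain ⟨M, _, h2⟩ := zipCheck_spec _ _ L (allIdx i) h (i, κ) (mem_allIdx i κ)
  exact ⟨M.1, M.2, h2⟩

theorem cert (i : Fin 9) (κ : Fin 36) : ∃ p n, comb EL p n = Drow i κ := by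
  have h : ∀ i : Fin 9, ∃ L, chk L i = true := by
    intro i
    fin_cases i
    · exact ⟨_, ck0⟩
    · exact ⟨_, ck1⟩
    · exact ⟨_, ck2⟩
    · exact ⟨_, ck3⟩
    · exact ⟨_, ck4⟩
    · exact ⟨_, ck5⟩
    · exact ⟨_, ck6⟩
    · exact ⟨_, ck7⟩
    · exact ⟨_, ck8⟩
  obtain ⟨L, hL⟩ := h i
  exact cert_of_chk hL κ

end Pool.Agent.Helper712.EG
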