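import Mathlib

set_option autoImplicit false

namespace Pool.Agent.Helper712.EG

/-- a linear form over the field with three elements, packed in two bit masks -/
abbrev Tr := ℕ × ℕ

def bv (b : Bool) : ZMod 3 := if b then 1 else 0

def cf (X : Tr) (k : ℕ) : ZMod 3 := bv (X.1.testBit k) - bv (X.2.testBit k)

def sem (X : Tr) (x : ℕ → ZMod 3) : ZMod 3 := ∑ k ∈ Finset.range 324, cf X k * x k

def addT (X Y : Tr) : Tr :=
  let a := X.1 ^^^ X.2
  let b := Y.1 ^^^ Y.2
  let p := X.1 &&& a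
  let n := X.2 &&& a
  let q := Y.1 &&& b
  let m := Y.2 &&& b
  ((p ^^^ (p &&& b)) ||| (q ^^^ (q &&& a)) ||| (n &&& m),
   (n ^^^ (n &&& b)) ||| (m ^^^ (m &&& a)) ||| (p &&& q))

def negT (X : Tr) : Tr := (X.2, X.1)

def unitT (k : ℕ) : Tr := (1 <<< k, 0)

theorem bool_aux : ∀ p n q m : Bool,
    bv (((p && (p ^^ n)) ^^ ((p && (p ^^ n)) && (q ^^ m))) ||
      ((q && (q ^^ m)) ^^ ((q && (q ^^ m)) && (p ^^ n))) || ((n && (p ^^ n)) && (m && (q ^^ m)))) -
    bv (((n && (p ^^ n)) ^^ ((n && (p ^^ n)) && (q ^^ m))) ||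
      ((m && (q ^^ m)) ^^ ((m && (q ^^ m)) && (p ^^ n))) || ((p && (p ^^ n)) && (q && (q ^^ m)))) =
    bv p - bv n + (bv q - bv m) := by
  decide

theorem cf_add (X Y : Tr) (k : ℕ) : cf (addT X Y) k = cf X k + cf Y k := by
  simp only [cf, addT, Nat.testBit_xor, Nat.testBit_and, Nat.testBit_or]
  exact bool_aux _ _ _ _

theorem cf_neg (X : Tr) (k : ℕ) : cf (negT X) k = -cf X k := by
  simp only [cf, negT]; ring

theorem cf_unit (j k : ℕ) : cf (unitT j) k = if j = k then 1 else 0 := by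
  have h1 : (unitT j).1.testBit k = decide (j = k) := by
    simp only [unitT]
    rw [Nat.one_shiftLeft, Nat.testBit_two_pow]
  have h2 : (unitT j).2.testBit k = false := Nat.zero_testBit k
  rw [cf, h1, h2]
  by_cases h : j = k
  · simp [bv, h]
  · simp [bv, h]

theorem sem_add (X Y : Tr) (x : ℕ → ZMod 3) : sem (addT X Y) x = sem X x + sem Y x := by
  simp only [sem, cf_add, add_mul, Finset.sum_add_distrib]

theorem sem_neg (X : Tr) (x : ℕ → ZMod 3) : sem (negT X) x = -sem X x := by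
  simp only [sem, cf_neg, neg_mul, Finset.sum_neg_distrib]

theorem sem_zero (x : ℕ → ZMod 3) : sem (0, 0) x = 0 := by
  simp [sem, cf]

theorem sem_unit {j : ℕ} (hj : j < 324) (x : ℕ → ZMod 3) : sem (unitT j) x = x j := by
  simp only [sem, cf_unit, ite_mul, one_mul, zero_mul]
  rw [Finset.sum_ite_eq]
  simp [hj]

/-- adds a form, its negative, or nothing -/
def sel (a b : ℕ) (E R : Tr) : Tr :=
  Nat.rec (Nat.rec R (fun _ _ => addT (negT E) R) b) (fun _ _ => addT E R) a

/-- signed combination of a list of forms -/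
def comb (L : List Tr) : ℕ → ℕ → Tr :=
  List.rec (fun _ _ => (0, 0)) (fun E _ ih p n => sel (p % 2) (n % 2) E (ih (p / 2) (n / 2))) L

theorem sem_sel (x : ℕ → ZMod 3) (a b : ℕ) (E R : Tr) (hE : sem E x = 0) (hR : sem R x = 0) :
    sem (sel a b E R) x = 0 := by
  rcases a with _ | a
  · rcases b with _ | b
    · exact hR
    · show sem (addT (negT E) R) x = 0
      rw [sem_add, sem_neg, hE, hR]; ring
  · show sem (addT E R) x = 0
    rw [sem_add, hE, hR]; ring

theorem sem_comb (x : ℕ → ZMod 3) (L : List Tr) (h : ∀ E ∈ L, sem E x = 0) :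
    ∀ p n, sem (comb L p n) x = 0 := by
  induction L with
  | nil => intro p n; exact sem_zero x
  | cons E L ih =>
    intro p n
    exact sem_sel x _ _ _ _ (h E List.mem_cons_self)
      (ih (fun E hE => h E (List.mem_cons_of_mem _ hE)) (p / 2) (n / 2))

end Pool.Agent.Helper712.EG
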